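import Pool.Agent.Lib.MP_c80ac4_an.RJ.Defs

/-!
# Row ARI: arithmetic of the frequencies

`tau k = 16 ^ ((k+1)^2)`. `tau_step`: `(l+1)^2 ≥ (k+2)^2 = (k+1)^2 + 2k + 3`. `near_unique`: for
`k < l`: `16^((l+1)^2) ≤ 16^l n ≤ 16^(l + k + (k+1)^2)`, but `(l+1)^2 > l + k + (k+1)^2`.
`Nat.unpair_pair`, `Nat.right_le_pair`, `Nat.left_le_pair`, `Nat.pair_eq_pair`.
-/

namespace Forcing.RJ

theorem tau_pos (k : ℕ) : 0 < tau k := by
  unfold tau
  positivity

theorem le_tau (k : ℕ) : k ≤ tau k := by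
  unfold tau
  have h1 : k < 16 ^ k := Nat.lt_pow_self (by norm_num)
  have h2 : 16 ^ k ≤ 16 ^ ((k + 1) ^ 2) := Nat.pow_le_pow_right (by norm_num) (by nlinarith)
  exact h1.le.trans h2

theorem tau_step {k l : ℕ} (h : k < l) : 16 ^ (2 * k + 3) * tau k ≤ tau l := by
  unfold tau
  rw [← pow_add]
  refine Nat.pow_le_pow_right (by norm_num) ?_
  have h1 : (k + 2) ^ 2 ≤ (l + 1) ^ 2 := Nat.pow_le_pow_left (by omega) 2
  have h2 : (k + 2) ^ 2 = 2 * k + 3 + (k + 1) ^ 2 := by ring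
  omega

private theorem ari_lt {k l : ℕ} (h : k < l) : tau k < tau l := by
  have h1 := tau_step h
  have h2 := tau_pos k
  have h3 : 16 ^ 1 ≤ 16 ^ (2 * k + 3) := Nat.pow_le_pow_right (by norm_num) (by omega)
  nlinarith

theorem tau_inj : Function.Injective tau :=
  (strictMono_nat_of_lt_succ fun k => ari_lt (Nat.lt_succ_self k)).injective

theorem near_self (k : ℕ) : Near k (tau k) := by
  have h : 1 ≤ 16 ^ k := Nat.one_le_pow _ _ (by norm_num)
  have h1 : tau k ≤ 16 ^ k * tau k := Nat.le_mul_of_pos_left _ h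
  exact ⟨h1, h1⟩

private theorem ari_near {k l n : ℕ} (h : k < l) (h1 : Near k n) (h2 : Near l n) : False := by
  have h3 : tau l ≤ 16 ^ (l + k + (k + 1) ^ 2) := by
    calc tau l ≤ 16 ^ l * n := h2.1
      _ ≤ 16 ^ l * (16 ^ k * tau k) := Nat.mul_le_mul_left _ h1.2
      _ = 16 ^ (l + k + (k + 1) ^ 2) := by
        unfold tau
        rw [pow_add, pow_add, mul_assoc]
  unfold tau at h3
  have h4 : (l + 1) ^ 2 ≤ l + k + (k + 1) ^ 2 := (Nat.pow_le_pow_iff_right (by norm_num)).1 h3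
  obtain ⟨d, rfl⟩ : ∃ d, l = k + 1 + d := ⟨l - (k + 1), by omega⟩
  nlinarith

theorem near_unique {k l n : ℕ} (h1 : Near k n) (h2 : Near l n) : k = l := by
  rcases lt_trichotomy k l with h | h | h
  · exact (ari_near h h1 h2).elim
  · exact h
  · exact (ari_near h h2 h1).elim

theorem gr_idx (i j l : ℕ) : gr (idx i j l) = i := by
  unfold gr idx
  rw [Nat.unpair_pair]

theorem le_idx (i j l : ℕ) : j ≤ idx i j l :=
  (Nat.left_le_pair j l).trans (Nat.right_le_pair i (Nat.pair j l))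

theorem idx_inj {i j l l' : ℕ} (h : idx i j l = idx i j l') : l = l' := by
  unfold idx at h
  exact (Nat.pair_eq_pair.1 (Nat.pair_eq_pair.1 h).2).2

end Forcing.RJ
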