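import Pool.Agent.Lib.MP_c80ac4_an.RJ.Ari

/-!
# Row ARV: the finite sets of frequencies

`Fr_V`: `a ≤ j ≤ idx i j l`. `Fr_hi`, `V_lo`: `tau` is strictly increasing, so
`tau (idx i j l) < tau (k+1)` is equivalent to `idx i j l ≤ k`, and then `j ≤ k`.
`card_lo`, `sum_lo`: the elements of `lo i a k` are among `tau 0, ..., tau k`
(`(Finset.range (k+1)).image tau`), and `∑ l < k+1, tau l ≤ 2 tau k` by induction, `tau_step`.
`sub_lo`: the finitely many indices of `V i a J` are `≤ k` for `k` large (and their `j` are `≤ k`).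
-/

namespace Forcing.RJ

private theorem tau_dbl {k l : ℕ} (h : k < l) : 2 * tau k ≤ tau l := by
  have h1 := tau_step h
  have h2 : 2 ≤ 16 ^ (2 * k + 3) := by
    calc 2 ≤ 16 ^ 1 := by norm_num
      _ ≤ 16 ^ (2 * k + 3) := Nat.pow_le_pow_right (by norm_num) (by omega)
  exact (Nat.mul_le_mul_right _ h2).trans h1

private theorem tau_lt {k l : ℕ} (h : k < l) : tau k < tau l := by
  have h1 := tau_dbl h
  have h2 := tau_pos k
  omega

private theorem tau_lt_iff {k l : ℕ} : tau k < tau l ↔ k < l := by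
  constructor
  · intro h
    by_contra h1
    rcases Nat.lt_or_eq_of_le (not_lt.1 h1) with h2 | h2
    · exact absurd (tau_lt h2) (by omega)
    · rw [h2] at h
      exact lt_irrefl _ h
  · exact tau_lt

theorem mem_V {i a b n : ℕ} :
    n ∈ V i a b ↔ ∃ j l, a ≤ j ∧ j < b ∧ l < 2 ^ j ∧ n = tau (idx i j l) := by
  unfold V fr
  simp only [Finset.mem_biUnion, Finset.mem_Ico, Finset.mem_image, Finset.mem_range]
  constructor
  · rintro ⟨j, ⟨h1, h2⟩, l, hl, rfl⟩
    exact ⟨j, l, h1, h2, hl, rfl⟩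
  · rintro ⟨j, l, h1, h2, hl, rfl⟩
    exact ⟨j, ⟨h1, h2⟩, l, hl, rfl⟩

theorem fr_card (i j : ℕ) : (fr i j).card = 2 ^ j := by
  unfold fr
  rw [Finset.card_image_of_injective _ (fun l l' h => idx_inj (tau_inj h)), Finset.card_range]

theorem fr_subset {i a b j : ℕ} (h1 : a ≤ j) (h2 : j < b) : fr i j ⊆ V i a b := by
  unfold V
  exact Finset.subset_biUnion_of_mem (fr i) (Finset.mem_Ico.2 ⟨h1, h2⟩)

/-- all frequencies of `V i a b` have index at least `a` -/
theorem Fr_V (i a b : ℕ) : Fr i a (V i a b) := by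
  intro n hn
  obtain ⟨j, l, h1, h2, h3, rfl⟩ := mem_V.1 hn
  exact ⟨idx i j l, gr_idx i j l, h1.trans (le_idx i j l), rfl⟩

/-- the frequencies of `V i a T` which are not low have index at least `k + 1` -/
theorem Fr_hi (i a T k : ℕ) : Fr i (k + 1) ((V i a T).filter fun n => ¬ n < tau (k + 1)) := by
  intro n hn
  rw [Finset.mem_filter] at hn
  obtain ⟨hn, hk⟩ := hn
  obtain ⟨j, l, h1, h2, h3, rfl⟩ := mem_V.1 hn
  rw [tau_lt_iff] at hk
  exact ⟨idx i j l, gr_idx i j l, not_lt.1 hk, rfl⟩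

theorem V_lo {i a T k : ℕ} (hT : k < T) : (V i a T).filter (· < tau (k + 1)) = lo i a k := by
  unfold lo
  ext n
  simp only [Finset.mem_filter, mem_V]
  constructor
  · rintro ⟨⟨j, l, h1, h2, h3, rfl⟩, h4⟩
    have h5 := le_idx i j l
    have h6 := tau_lt_iff.1 h4
    exact ⟨⟨j, l, h1, by omega, h3, rfl⟩, h4⟩
  · rintro ⟨⟨j, l, h1, h2, h3, rfl⟩, h4⟩
    exact ⟨⟨j, l, h1, by omega, h3, rfl⟩, h4⟩

private theorem lo_sub (i a k : ℕ) : lo i a k ⊆ (Finset.range (k + 1)).image tau := by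
  intro n hn
  unfold lo at hn
  rw [Finset.mem_filter] at hn
  obtain ⟨hn, hk⟩ := hn
  obtain ⟨j, l, h1, h2, h3, rfl⟩ := mem_V.1 hn
  exact Finset.mem_image.2 ⟨idx i j l, Finset.mem_range.2 (tau_lt_iff.1 hk), rfl⟩

theorem card_lo (i a k : ℕ) : (lo i a k).card ≤ k + 1 := by
  calc (lo i a k).card ≤ ((Finset.range (k + 1)).image tau).card :=
        Finset.card_le_card (lo_sub i a k)
    _ ≤ (Finset.range (k + 1)).card := Finset.card_image_le
    _ = k + 1 := Finset.card_range _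

private theorem sum_tau (k : ℕ) : ∑ l ∈ Finset.range (k + 1), tau l ≤ 2 * tau k := by
  induction k with
  | zero =>
    rw [Finset.sum_range_one]
    omega
  | succ k ih =>
    rw [Finset.sum_range_succ]
    have h1 := tau_dbl (Nat.lt_succ_self k)
    simp only [Nat.succ_eq_add_one] at h1
    omega

theorem sum_lo (i a k : ℕ) : ∑ n ∈ lo i a k, (n : ℝ) ≤ 2 * tau k := by
  have h1 : ∑ n ∈ lo i a k, n ≤ 2 * tau k := by
    calc ∑ n ∈ lo i a k, n ≤ ∑ n ∈ (Finset.range (k + 1)).image tau, n :=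
          Finset.sum_le_sum_of_subset (lo_sub i a k)
      _ = ∑ l ∈ Finset.range (k + 1), tau l :=
          Finset.sum_image (fun x _ y _ h => tau_inj h)
      _ ≤ 2 * tau k := sum_tau k
  have h2 : ((∑ n ∈ lo i a k, n : ℕ) : ℝ) ≤ ((2 * tau k : ℕ) : ℝ) := Nat.cast_le.2 h1
  rw [Nat.cast_sum, Nat.cast_mul] at h2
  exact h2

theorem sub_lo (i a J : ℕ) : ∃ K, ∀ k, K ≤ k → V i a J ⊆ lo i a k := by
  refine ⟨J + (V i a J).sup id, fun k hk n hn => ?_⟩
  have h0 : n ≤ (V i a J).sup id := Finset.le_sup (f := id) hn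
  have h4 := le_tau (k + 1)
  unfold lo
  rw [Finset.mem_filter]
  refine ⟨?_, by omega⟩
  obtain ⟨j, l, h1, h2, h3, rfl⟩ := mem_V.1 hn
  exact mem_V.2 ⟨j, l, h1, by omega, h3, rfl⟩

end Forcing.RJ
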