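import Pool.Agent.Lib.MP_c80ac4_an.RJ.Defs

/-!
# Row BMP: the bumps

`h_supp`: `1 - 2^(i+3) |x - (3/4) 2^(-i)| > 0` gives `|x - (3/4) 2^(-i)| < 2^(-i) / 8`, so
`(5/8) 2^(-i) < x < (7/8) 2^(-i)`. `BL_h`: bound 1, Lipschitz constant `2^(i+3)`
(`abs_max_sub_max_le_abs`, `abs_abs_sub_abs_le`, `abs_norm_sub_norm_le`).
`int_h_pos`: `integral_haar` (for complex or real functions; `h i` is continuous) turns the integral
into `(1 / (2 π)) ∫ t in 0..2π, h i (ex t)`; the integrand is continuous, nonnegative and positive at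
one point: `‖ex t - 1‖` is continuous, 0 at `t = 0` and 2 at `t = π`, so it takes the value
`(3/4) 2^(-i)` at some `t` between (intermediate value theorem), where `h i (ex t) = 1`.
(`intervalIntegral.integral_pos`.) `integral_haar` is for complex valued functions: apply it to
`fun z => (h i z : ℂ)` and use `integral_complex_ofReal`, or repeat its proof.
-/

namespace Forcing.RJ

open Complex Metric Set MeasureTheory Filter Topology Forcing.RZ Forcing.UN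

theorem h_nonneg (i : ℕ) (z : ℂ) : 0 ≤ h i z := by
  unfold h
  exact le_max_left _ _

theorem h_le_one (i : ℕ) (z : ℂ) : h i z ≤ 1 := by
  unfold h
  refine max_le zero_le_one ?_
  have h1 : (0 : ℝ) ≤ 2 ^ (i + 3) * |‖z - 1‖ - 3 / 4 * (1 / 2) ^ i| :=
    mul_nonneg (by positivity) (abs_nonneg _)
  linarith

theorem continuous_h (i : ℕ) : Continuous (h i) := by
  unfold h
  fun_prop

theorem BL_h (i : ℕ) : BL (h i) := by
  refine ⟨1, 2 ^ (i + 3), zero_le_one, by positivity, fun z _ => ?_, fun z w _ _ => ?_⟩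
  · rw [abs_of_nonneg (h_nonneg i z)]
    exact h_le_one i z
  · unfold h
    rw [max_comm (0 : ℝ), max_comm (0 : ℝ)]
    refine (abs_max_sub_max_le_abs (1 - 2 ^ (i + 3) * |‖z - 1‖ - 3 / 4 * (1 / 2 : ℝ) ^ i|)
      (1 - 2 ^ (i + 3) * |‖w - 1‖ - 3 / 4 * (1 / 2 : ℝ) ^ i|) 0).trans ?_
    have h1 : |‖z - 1‖ - ‖w - 1‖| ≤ ‖z - w‖ := by
      refine (abs_norm_sub_norm_le _ _).trans (le_of_eq ?_)
      congr 1
      ring
    have h2 := abs_abs_sub_abs_le (‖w - 1‖ - 3 / 4 * (1 / 2 : ℝ) ^ i) (‖z - 1‖ - 3 / 4 * (1 / 2 : ℝ) ^ i)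
    have h3 : (0 : ℝ) < 2 ^ (i + 3) := by positivity
    have h4 : |‖w - 1‖ - 3 / 4 * (1 / 2 : ℝ) ^ i - (‖z - 1‖ - 3 / 4 * (1 / 2 : ℝ) ^ i)| ≤ ‖z - w‖ := by
      rw [sub_sub_sub_cancel_right, abs_sub_comm]
      exact h1
    rw [show (1 - 2 ^ (i + 3) * |‖z - 1‖ - 3 / 4 * (1 / 2 : ℝ) ^ i|)
      - (1 - 2 ^ (i + 3) * |‖w - 1‖ - 3 / 4 * (1 / 2 : ℝ) ^ i|)
      = 2 ^ (i + 3) * (|‖w - 1‖ - 3 / 4 * (1 / 2 : ℝ) ^ i| - |‖z - 1‖ - 3 / 4 * (1 / 2 : ℝ) ^ i|) by ring,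
      abs_mul, abs_of_pos h3]
    exact mul_le_mul_of_nonneg_left (h2.trans h4) h3.le

theorem h_supp {i : ℕ} {z : ℂ} (hz : h i z ≠ 0) :
    (1 / 2 : ℝ) ^ (i + 1) ≤ ‖z - 1‖ ∧ ‖z - 1‖ ≤ (1 / 2 : ℝ) ^ i := by
  have h0 : 0 < h i z := lt_of_le_of_ne (h_nonneg i z) (Ne.symm hz)
  unfold h at h0
  have h1 : 0 < 1 - 2 ^ (i + 3) * |‖z - 1‖ - 3 / 4 * (1 / 2 : ℝ) ^ i| := by
    rcases lt_max_iff.1 h0 with h | h
    · exact absurd h (lt_irrefl _)
    · exact h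
  have hp : (0 : ℝ) < (1 / 2) ^ i := by positivity
  have h2 : (2 : ℝ) ^ (i + 3) * (1 / 2) ^ i = 8 := by
    rw [pow_add, one_div, inv_pow]
    field_simp
    norm_num
  have h3 : |‖z - 1‖ - 3 / 4 * (1 / 2 : ℝ) ^ i| < (1 / 2) ^ i / 8 := by
    have h4 : (0 : ℝ) < 2 ^ (i + 3) := by positivity
    have h5 : (2 : ℝ) ^ (i + 3) * ((1 / 2) ^ i / 8) = 1 := by
      rw [← mul_div_assoc, h2]
      norm_num
    by_contra hcon
    have h6 := mul_le_mul_of_nonneg_left (not_lt.1 hcon) h4.le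
    rw [h5] at h6
    linarith
  rw [abs_lt] at h3
  rw [pow_succ]
  constructor <;> linarith [h3.1, h3.2]

theorem int_h_pos (i : ℕ) : 0 < ∫ z, h i z ∂haar := by
  have hc := continuous_h i
  have hpi := Real.pi_pos
  have hkey : ∫ z, h i z ∂haar = (1 / (2 * Real.pi) : ℝ) • ∫ t in (0 : ℝ)..(2 * Real.pi), h i (ex t) := by
    unfold haar
    rw [integral_map continuous_ex.aemeasurable hc.measurable.aestronglyMeasurable]
    unfold nu
    rw [integral_smul_measure, ENNReal.toReal_ofReal (by positivity),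
      intervalIntegral.integral_of_le (by positivity)]
  rw [hkey]
  refine smul_pos (by positivity) ?_
  have hd : Continuous fun t : ℝ => ‖ex t - 1‖ := (continuous_ex.sub continuous_const).norm
  have e0 : ‖ex 0 - 1‖ = 0 := by simp [ex]
  have e1 : ‖ex Real.pi - 1‖ = 2 := by
    unfold ex
    rw [Complex.exp_pi_mul_I]
    norm_num
  have hp : (0 : ℝ) < (1 / 2) ^ i := by positivity
  have hp1 : ((1 : ℝ) / 2) ^ i ≤ 1 := pow_le_one₀ (by norm_num) (by norm_num)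
  have hmem : 3 / 4 * (1 / 2 : ℝ) ^ i ∈ Set.Icc ((fun t : ℝ => ‖ex t - 1‖) 0) ((fun t : ℝ => ‖ex t - 1‖) Real.pi) := by
    show 3 / 4 * (1 / 2 : ℝ) ^ i ∈ Set.Icc ‖ex 0 - 1‖ ‖ex Real.pi - 1‖
    rw [e0, e1]
    constructor <;> linarith
  obtain ⟨t, ht, htv⟩ := intermediate_value_Icc hpi.le hd.continuousOn hmem
  refine intervalIntegral.integral_pos (by positivity) (hc.comp continuous_ex).continuousOn
    (fun x _ => h_nonneg i _) ⟨t, ⟨ht.1, ht.2.trans (by linarith)⟩, ?_⟩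
  have htv' : ‖ex t - 1‖ = 3 / 4 * (1 / 2 : ℝ) ^ i := htv
  unfold h
  rw [htv', sub_self, abs_zero, mul_zero, sub_zero]
  norm_num

end Forcing.RJ
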