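import Pool.Agent.Lib.MP_c80ac4_an.RJ.Defs

/-!
# Row CUT: the cut-off functions (adaptation of UN/Cutoff.lean)

`BL`, `BL.mul`, `BL.one`, `BL.cut`, `BL.prod`, `pow_lip` are in UN/Cutoff.lean (`BL.P` shows how to
bound `‖P i j z - 1/2‖`; the difference of the values of `P i j` is the same). `gc_ge` as
`Forcing.UN.g_ge`.
-/

namespace Forcing.RJ

open Complex Metric Set MeasureTheory Filter Topology Forcing.RZ Forcing.UN

private theorem cut_ge (s : Finset ℕ) (x : ℕ → ℝ) (hx : ∀ j, 0 ≤ x j) :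
    1 - ∑ j ∈ s, x j ≤ ∏ j ∈ s, max 0 (1 - x j) ∧ 0 ≤ ∏ j ∈ s, max 0 (1 - x j) ∧
      ∏ j ∈ s, max 0 (1 - x j) ≤ 1 := by
  classical
  induction s using Finset.induction_on with
  | empty => simp
  | insert j s hj ih =>
    obtain ⟨h1, h2, h3⟩ := ih
    rw [Finset.prod_insert hj, Finset.sum_insert hj]
    have hx0 := hx j
    have h4 : 0 ≤ max 0 (1 - x j) := le_max_left _ _
    have h5 : max 0 (1 - x j) ≤ 1 := max_le zero_le_one (by linarith)
    have h6 : 1 - x j ≤ max 0 (1 - x j) := le_max_right _ _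
    refine ⟨?_, mul_nonneg h4 h2, mul_le_one₀ h5 h2 h3⟩
    have h7 : (1 - x j) * ∏ j ∈ s, max 0 (1 - x j) ≤ max 0 (1 - x j) * ∏ j ∈ s, max 0 (1 - x j) :=
      mul_le_mul_of_nonneg_right h6 h2
    have h8 : x j * ∏ j ∈ s, max 0 (1 - x j) ≤ x j * 1 := mul_le_mul_of_nonneg_left h3 hx0
    linarith

private theorem cut_P (i j : ℕ) : BL fun z => ‖P i j z - 1 / 2‖ := by
  refine ⟨‖(1 / ((2 ^ j : ℕ) : ℂ))‖ * (2 ^ j : ℕ) + 1,
    ‖(1 / ((2 ^ j : ℕ) : ℂ))‖ * ∑ l ∈ Finset.range (2 ^ j), (tau (idx i j l) : ℝ),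
    by positivity, by positivity, fun z hz => ?_, fun z w hz hw => ?_⟩
  · rw [abs_of_nonneg (norm_nonneg _)]
    refine (norm_sub_le _ _).trans (add_le_add ?_ ?_)
    · unfold P
      rw [norm_mul]
      refine mul_le_mul_of_nonneg_left ?_ (norm_nonneg _)
      refine (norm_sum_le _ _).trans ?_
      simp [hz]
    · norm_num
  · refine (abs_norm_sub_norm_le _ _).trans ?_
    have e : P i j z - 1 / 2 - (P i j w - 1 / 2) = P i j z - P i j w := by ring
    rw [e]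
    unfold P
    rw [← mul_sub, norm_mul, mul_assoc]
    refine mul_le_mul_of_nonneg_left ?_ (norm_nonneg _)
    rw [← Finset.sum_sub_distrib, Finset.sum_mul]
    exact (norm_sum_le _ _).trans (Finset.sum_le_sum fun l _ => pow_lip _ hz hw)

private theorem cut_x (i : ℕ) (z : ℂ) (j : ℕ) : 0 ≤ 16 * ‖P i j z - 1 / 2‖ ^ 2 := by positivity

theorem gc_nonneg (i a b : ℕ) (z : ℂ) : 0 ≤ gc i a b z :=
  (cut_ge (Finset.Ico a b) (fun j => 16 * ‖P i j z - 1 / 2‖ ^ 2) (cut_x i z)).2.1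

theorem gc_le_one (i a b : ℕ) (z : ℂ) : gc i a b z ≤ 1 :=
  (cut_ge (Finset.Ico a b) (fun j => 16 * ‖P i j z - 1 / 2‖ ^ 2) (cut_x i z)).2.2

theorem continuous_gc (i a b : ℕ) : Continuous (gc i a b) := by
  unfold gc
  have := fun j => continuous_P i j
  fun_prop

theorem BL_gc (i a b : ℕ) : BL (gc i a b) := by
  have h : gc i a b = fun z => ∏ j ∈ Finset.range (b - a), max 0 (1 - 16 * ‖P i (a + j) z - 1 / 2‖ ^ 2) := by
    funext z
    unfold gc
    rw [Finset.prod_Ico_eq_prod_range]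
  rw [h]
  exact BL.prod (b - a) fun j => (cut_P i (a + j)).cut 16 (by norm_num)

theorem gc_ge (i a b : ℕ) (z : ℂ) :
    1 - ∑ j ∈ Finset.Ico a b, 16 * ‖P i j z - 1 / 2‖ ^ 2 ≤ gc i a b z :=
  (cut_ge (Finset.Ico a b) (fun j => 16 * ‖P i j z - 1 / 2‖ ^ 2) (cut_x i z)).1

end Forcing.RJ
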