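import Pool.Agent.Lib.MP_c80ac4_an.RJ.Ari

/-!
# Row LAC: unions are lacunary

`lac_union`: both in `A`: `hA`. Both in `W`: `tau_step`, `16^(2k+3) ≥ 16^K ≥ Q`. One in `A`, one
in `W`: `n` is not near `k`, so `16^k n < tau k` or `16^k tau k < n`, and `Q ≤ 16^K ≤ 16^k`.
`disj_W`: `tau k` is near `k`. `sep_W`: `m` is not near `k`, `k ≥ 1`: `16 m < tau k` or
`16 tau k < m`.
-/

namespace Forcing.RJ

private theorem far {k n : ℕ} (h : ¬ Near k n) (hlt : n < tau k) : 16 ^ k * n < tau k := by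
  by_contra h1
  push Not at h1
  have h2 : 1 ≤ 16 ^ k := Nat.one_le_pow _ _ (by norm_num)
  exact h ⟨h1, by nlinarith⟩

private theorem far' {k n : ℕ} (h : ¬ Near k n) (hlt : tau k < n) : 16 ^ k * tau k < n := by
  by_contra h1
  push Not at h1
  have h2 : 1 ≤ 16 ^ k := Nat.one_le_pow _ _ (by norm_num)
  exact h ⟨by nlinarith, h1⟩

private theorem mul_le_pow {Q : ℝ} {K k : ℕ} (hQ : Q ≤ 16 ^ K) (hk : K ≤ k) (m : ℕ) :
    Q * m ≤ ((16 ^ k * m : ℕ) : ℝ) := by
  have h1 : (16 : ℝ) ^ K ≤ 16 ^ k := pow_le_pow_right₀ (by norm_num) hk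
  push_cast
  exact mul_le_mul_of_nonneg_right (hQ.trans h1) (Nat.cast_nonneg m)

theorem lac_union {Q : ℝ} {i K : ℕ} (hQ : Q ≤ 16 ^ K) {A W : Finset ℕ} (hW : Fr i K W)
    (hA : Lc Q A) (hn : Away i A) : Lc Q (A ∪ W) := by
  intro m hm n hmem hmn
  rcases Finset.mem_union.mp hm with hmA | hmW <;> rcases Finset.mem_union.mp hmem with hnA | hnW
  · exact hA m hmA n hnA hmn
  · obtain ⟨k, hk1, hk2, rfl⟩ := hW n hnW
    have h1 := far (hn m hmA k hk1) hmn
    exact (mul_le_pow hQ hk2 m).trans (by exact_mod_cast h1.le)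
  · obtain ⟨k, hk1, hk2, rfl⟩ := hW m hmW
    have h1 := far' (hn n hnA k hk1) hmn
    exact (mul_le_pow hQ hk2 _).trans (by exact_mod_cast h1.le)
  · obtain ⟨k, hk1, hk2, rfl⟩ := hW m hmW
    obtain ⟨l, hl1, hl2, rfl⟩ := hW n hnW
    have hkl : k < l := by
      by_contra h1
      push Not at h1
      rcases h1.eq_or_lt with h2 | h2
      · subst h2
        exact lt_irrefl _ hmn
      · have h3 := tau_step h2
        have h4 : 1 ≤ 16 ^ (2 * l + 3) := Nat.one_le_pow _ _ (by norm_num)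
        nlinarith
    have h1 := tau_step hkl
    exact (mul_le_pow hQ (by omega : K ≤ 2 * k + 3) _).trans (by exact_mod_cast h1)

theorem disj_W {i K : ℕ} {A W : Finset ℕ} (hW : Fr i K W) (hn : Away i A) : Disjoint A W := by
  rw [Finset.disjoint_left]
  intro n hA hnW
  obtain ⟨k, hk1, _, rfl⟩ := hW n hnW
  exact hn _ hA k hk1 (near_self k)

theorem sep_W {i K m n : ℕ} (hK : 1 ≤ K) (hn : ∃ k, gr k = i ∧ K ≤ k ∧ n = tau k)
    (hm : ∀ k, gr k = i → ¬ Near k m) : (n : ℝ) / 2 ≤ |(m : ℝ) - n| := by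
  obtain ⟨k, hk1, hk2, rfl⟩ := hn
  have hk : 1 ≤ k := hK.trans hk2
  have h16 : 16 ≤ 16 ^ k := by
    calc 16 = 16 ^ 1 := by norm_num
      _ ≤ 16 ^ k := Nat.pow_le_pow_right (by norm_num) hk
  have hnear := hm k hk1
  rcases lt_trichotomy m (tau k) with h | h | h
  · have h1 := far hnear h
    have h2 : 16 * m ≤ tau k := (Nat.mul_le_mul_right m h16).trans h1.le
    have h3 : (16 : ℝ) * m ≤ tau k := by exact_mod_cast h2
    have h4 : (0 : ℝ) ≤ m := Nat.cast_nonneg m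
    rw [abs_sub_comm]
    refine le_trans ?_ (le_abs_self _)
    linarith
  · subst h
    exact absurd (near_self k) hnear
  · have h1 := far' hnear h
    have h2 : 16 * tau k ≤ m := (Nat.mul_le_mul_right (tau k) h16).trans h1.le
    have h3 : (16 : ℝ) * tau k ≤ m := by exact_mod_cast h2
    have h4 : (0 : ℝ) ≤ tau k := Nat.cast_nonneg _
    refine le_trans ?_ (le_abs_self _)
    linarith

end Forcing.RJ
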