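import Pool.Agent.Lib.MP_c80ac4_an.RJ.Defs

/-!
# Row RV: the Riesz product with all parameters 1

Each factor `|1 + Re z^n|` is in `[0, 2]` on the circle and Lipschitz with constant `n`
(`abs_abs_sub_abs_le_abs_sub`, `Complex.abs_re_le_norm`, `pow_lip` of UN/Cutoff.lean); `rv_lip` by
`Finset.induction_on`. On the circle the factor of `rp` for `ε n = 1` is
`1 + (z^(-n) + z^n) / 2 = 1 + Re z^n` (`z^(-n)` is the conjugate of `z^n`), which is `≥ 0`.
-/

namespace Forcing.RJ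

open Complex Metric Set MeasureTheory Filter Topology Forcing.RZ Forcing.UN

theorem rv_nonneg (W : Finset ℕ) (z : ℂ) : 0 ≤ rv W z :=
  Finset.prod_nonneg fun _ _ => abs_nonneg _

theorem continuous_rv (W : Finset ℕ) : Continuous (rv W) := by
  unfold rv
  refine continuous_finsetProd _ fun n _ => ?_
  exact (continuous_const.add (Complex.continuous_re.comp (continuous_pow n))).abs

private theorem rv_fac {n : ℕ} {z : ℂ} (hz : ‖z‖ = 1) : |1 + (z ^ n).re| ≤ 2 := by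
  have h1 : |(z ^ n).re| ≤ 1 := by
    refine (Complex.abs_re_le_norm _).trans ?_
    rw [norm_pow, hz, one_pow]
  rw [abs_le] at h1 ⊢
  constructor <;> linarith [h1.1, h1.2]

theorem rv_le (W : Finset ℕ) {z : ℂ} (hz : ‖z‖ = 1) : rv W z ≤ 2 ^ W.card := by
  unfold rv
  refine (Finset.prod_le_prod (fun _ _ => abs_nonneg _) (fun _ _ => rv_fac hz)).trans (le_of_eq ?_)
  rw [Finset.prod_const]

theorem rv_lip (W : Finset ℕ) {z w : ℂ} (hz : ‖z‖ = 1) (hw : ‖w‖ = 1) :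
    |rv W z - rv W w| ≤ 2 ^ W.card * (∑ n ∈ W, (n : ℝ)) * ‖z - w‖ := by
  induction W using Finset.induction_on with
  | empty => simp [rv]
  | insert n W hn ih =>
    have e : ∀ x : ℂ, rv (insert n W) x = |1 + (x ^ n).re| * rv W x := fun x => by
      unfold rv
      rw [Finset.prod_insert hn]
    rw [e, e, Finset.card_insert_of_notMem hn, Finset.sum_insert hn]
    have h1 : |1 + (z ^ n).re| * rv W z - |1 + (w ^ n).re| * rv W w =
        (|1 + (z ^ n).re| - |1 + (w ^ n).re|) * rv W z + |1 + (w ^ n).re| * (rv W z - rv W w) := by ring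
    have h2 : |(|1 + (z ^ n).re| - |1 + (w ^ n).re|)| ≤ n * ‖z - w‖ := by
      refine (abs_abs_sub_abs_le_abs_sub _ _).trans ?_
      have h3 : 1 + (z ^ n).re - (1 + (w ^ n).re) = (z ^ n - w ^ n).re := by
        rw [Complex.sub_re]
        ring
      rw [h3]
      exact (Complex.abs_re_le_norm _).trans (pow_lip n hz hw)
    have h4 := rv_le W hz
    have h5 := rv_nonneg W z
    have h6 : |1 + (w ^ n).re| ≤ 2 := rv_fac hw
    rw [h1]
    refine (abs_add_le _ _).trans ?_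
    rw [abs_mul, abs_mul, abs_of_nonneg h5, abs_abs]
    have h7 : |(|1 + (z ^ n).re| - |1 + (w ^ n).re|)| * rv W z ≤ (n * ‖z - w‖) * 2 ^ W.card :=
      mul_le_mul h2 h4 h5 (by positivity)
    have h8 : |1 + (w ^ n).re| * |rv W z - rv W w| ≤ 2 * (2 ^ W.card * (∑ n ∈ W, (n : ℝ)) * ‖z - w‖) :=
      mul_le_mul h6 ih (abs_nonneg _) (by norm_num)
    have h9 : 0 ≤ (n : ℝ) * ‖z - w‖ * 2 ^ W.card := by positivity
    rw [pow_succ]
    nlinarith

theorem norm_rp_eq {ε : ℕ → ℂ} {W : Finset ℕ} (h1 : ∀ n ∈ W, ε n = 1) {z : ℂ} (hz : ‖z‖ = 1) :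
    ‖rp ε W z‖ = rv W z := by
  unfold rp rv
  rw [norm_prod]
  refine Finset.prod_congr rfl fun n hn => ?_
  have hz0 : (starRingEnd ℂ) z = z⁻¹ := by
    rw [Complex.inv_def, Complex.normSq_eq_norm_sq, hz]; simp
  have h2 : z ^ (-(n : ℤ)) = (starRingEnd ℂ) (z ^ n) := by
    rw [map_pow, hz0, zpow_neg, zpow_natCast, inv_pow]
  have h3 : (1 : ℂ) + ((starRingEnd ℂ) (z ^ n) + z ^ n) / 2 = ((1 + (z ^ n).re : ℝ) : ℂ) := by
    rw [add_comm ((starRingEnd ℂ) (z ^ n)), Complex.add_conj]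
    push_cast
    ring
  rw [h1 n hn]
  simp only [map_one, one_mul, zpow_natCast]
  rw [h2, h3, Complex.norm_real, Real.norm_eq_abs]

theorem norm_rp_union {ε : ℕ → ℂ} {A W : Finset ℕ} (hd : Disjoint A W) (h1 : ∀ n ∈ W, ε n = 1)
    {z : ℂ} (hz : ‖z‖ = 1) : ‖rp ε (A ∪ W) z‖ = ‖rp ε A z‖ * rv W z := by
  rw [← norm_rp_eq h1 hz, ← norm_mul]
  unfold rp
  rw [Finset.prod_union hd]

end Forcing.RJ
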