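import Pool.Agent.Lib.MP_c80ac4_an.RJ.Sq
import Pool.Agent.Lib.MP_c80ac4_an.RJ.Cut
import Pool.Agent.Lib.MP_c80ac4_an.RJ.Bump
import Pool.Agent.Lib.MP_c80ac4_an.RJ.Rv
import Pool.Agent.Lib.MP_c80ac4_an.RJ.Lac

/-!
# Row BAS: every group has an admissible start

PROOF. `H = ∫ h i > 0`; `μ = dens (h i)` is a probability measure with `Dec μ C 1` (`dens_prob`,
`dec_dens`, `BL_h`). Take `a ≥ 1` with `a ≥ 32 C` and `32 (1/2)^a ≤ H / 2`. Let `J`, `T`, `W` be given.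
`W` is 5-lacunary (`lac_union` with `A = ∅`, `K = a`, `Fr_V`) and its elements are `≥ a` (`le_tau`).
`rI_zero` with `ε = 1`, `Par 5 1 C (1/4) (1/8) a`: `‖rI μ 1 W 0 - 1‖ ≤ 1/4`, so
`∫ ‖rp 1 W‖ dμ = ‖rI μ 1 W 0‖ ≥ 3/4` (`int_rp_norm`), i.e. `∫ h i * rv W dhaar ≥ (3/4) H`
(`integral_dens`, `norm_rp_eq`). By `gc_ge` and `0 ≤ h i ≤ 1`:
`ph i a J W ≥ h i * rv W - ∑ j ∈ Ico a J, 16 ‖P i j - 1/2‖² ‖rp 1 W‖` on the circle, and the
integral of the sum is at most `16 ∑ (1/2)^j ≤ 32 (1/2)^a` (`sq_P`, `fr i j ⊆ V i a J ⊆ W`,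
`geom_le` of UN/Cutoff.lean). Total `≥ (3/4 - 1/2) H`.
-/

namespace Forcing.RJ

open Complex Metric Set MeasureTheory Filter Topology Forcing.RZ Forcing.UN

private theorem bas_int {ψ : ℂ → ℝ} (hψ : Continuous ψ) {ε : ℕ → ℂ} (hε : ∀ n, ‖ε n‖ ≤ 1)
    (A : Finset ℕ) : Integrable (fun z => ψ z * ‖rp ε A z‖) haar := by
  obtain ⟨B, hB⟩ := (isCompact_sphere (0 : ℂ) 1).exists_bound_of_continuousOn hψ.continuousOn
  refine int_bdd haar_norm (hψ.measurable.mul (meas_rp ε A).norm).aestronglyMeasurable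
    (B := B * 2 ^ A.card) fun z hz => ?_
  have hB0 := (norm_nonneg _).trans (hB z (by simpa using hz))
  rw [norm_mul, norm_norm]
  exact mul_le_mul (hB z (by simpa using hz)) (norm_rp_le hε A hz) (norm_nonneg _) hB0

private theorem bas_pt {x y g S : ℝ} (hx0 : 0 ≤ x) (hx1 : x ≤ 1) (hy : 0 ≤ y) (hS : 0 ≤ S)
    (hg : 1 - S ≤ g) : x * y - S * y ≤ x * g * y := by
  have h1 : x * y * (1 - S) ≤ x * y * g := mul_le_mul_of_nonneg_left hg (mul_nonneg hx0 hy)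
  have h2 : x * (S * y) ≤ 1 * (S * y) := mul_le_mul_of_nonneg_right hx1 (mul_nonneg hS hy)
  nlinarith

theorem exists_start (i : ℕ) : ∃ a, Start i a := by
  have hH := int_h_pos i
  obtain ⟨B, Λ, -, hΛ0, -, hΛ⟩ := BL_h i
  have hdec := dec_dens (continuous_h i) (h_nonneg i) hH hΛ
  have hprob := dens_prob (continuous_h i) (h_nonneg i) hH
  set H := ∫ z, h i z ∂haar with hHd
  set C : ℝ := Real.pi * Λ / 2 / H with hCd
  have hC0 : 0 ≤ C := by
    have := Real.pi_pos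
    positivity
  obtain ⟨N, hN⟩ := exists_nat_ge (32 * C)
  obtain ⟨n, hn⟩ := exists_pow_lt_of_lt_one (show 0 < H / 64 by positivity)
    (by norm_num : (1 / 2 : ℝ) < 1)
  refine ⟨N + n + 1, by omega, fun J T W hJ hT => ?_⟩
  set a := N + n + 1 with had
  have ha1 : (1 / 2 : ℝ) ^ a ≤ H / 64 :=
    (pow_le_pow_of_le_one (by norm_num) (by norm_num) (by omega)).trans hn.le
  have hNa : (N : ℝ) ≤ a := by exact_mod_cast (by omega : N ≤ a)
  have ha0 : (0 : ℝ) < a := by exact_mod_cast (by omega : 0 < a)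
  have hpar : Par 5 1 C (1 / 4) (1 / 8) a := by
    refine ⟨by norm_num, by norm_num, one_pos, hC0, by norm_num, by norm_num, by norm_num,
      by omega, ?_⟩
    rw [Real.rpow_neg_one, ← div_eq_mul_inv, div_le_iff₀ (by positivity)]
    linarith
  have hFr : Fr i a W := fun m hm => Fr_V i a T m (hT hm)
  have h16 : (5 : ℝ) ≤ 16 ^ a := by
    have h1 : (16 : ℝ) ^ 1 ≤ 16 ^ a := pow_le_pow_right₀ (by norm_num) (by omega)
    linarith
  have hLc : Lc 5 W := by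
    have h1 := lac_union (A := ∅) h16 hFr (fun m hm => absurd hm (Finset.notMem_empty m))
      (fun m hm => absurd hm (Finset.notMem_empty m))
    rwa [Finset.empty_union] at h1
  have hWa : ∀ m ∈ W, a ≤ m := by
    intro m hm
    obtain ⟨k, -, hk, rfl⟩ := hFr m hm
    exact hk.trans (le_tau k)
  have hW1 : ∀ m ∈ W, 1 ≤ m := fun m hm => (by omega : 1 ≤ a).trans (hWa m hm)
  have hε : ∀ n : ℕ, ‖(fun _ : ℕ => (1 : ℂ)) n‖ ≤ 1 := fun _ => by simp
  set ε : ℕ → ℂ := fun _ => 1 with hεd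
  have h3 := rI_zero (dens_norm (h i)) hdec hpar hε W hLc hWa
  have h4 : (3 / 4 : ℝ) ≤ ‖rI (dens (h i)) ε W 0‖ := by
    have h5 : (1 : ℝ) ≤ ‖rI (dens (h i)) ε W 0‖ + ‖rI (dens (h i)) ε W 0 - 1‖ := by
      calc (1 : ℝ) = ‖rI (dens (h i)) ε W 0 - (rI (dens (h i)) ε W 0 - 1)‖ := by
            rw [sub_sub_cancel, norm_one]
        _ ≤ _ := norm_sub_le _ _
    have h6 : (0 : ℝ) ≤ 2 / 2 ^ W.card := by positivity
    linarith
  rw [← int_rp_norm (dens_norm (h i)) hε W,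
    integral_dens (continuous_h i) (h_nonneg i) hH] at h4
  have h5 : ∫ z, (h i z / H) • ‖rp ε W z‖ ∂haar = (∫ z, h i z * ‖rp ε W z‖ ∂haar) / H := by
    rw [← integral_div]
    refine integral_congr_ae (Eventually.of_forall fun z => ?_)
    simp only [smul_eq_mul]
    ring
  rw [h5, le_div_iff₀ hH] at h4
  have hsq : ∀ j ∈ Finset.Ico a J,
      ∫ z, ‖P i j z - 1 / 2‖ ^ 2 * ‖rp ε W z‖ ∂haar ≤ (1 / 2) ^ j := by
    intro j hj
    obtain ⟨hj1, hj2⟩ := Finset.mem_Ico.1 hj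
    exact sq_P hε hLc hW1 ((fr_subset hj1 hj2).trans hJ) fun _ _ => rfl
  have hi1 := bas_int (continuous_h i) hε W
  have hi2 : ∀ j ∈ Finset.Ico a J,
      Integrable (fun z => 16 * (‖P i j z - 1 / 2‖ ^ 2 * ‖rp ε W z‖)) haar := by
    intro j _
    refine (bas_int (ψ := fun z => ‖P i j z - 1 / 2‖ ^ 2) ?_ hε W).const_mul 16
    have := continuous_P i j
    fun_prop
  have hi3 : Integrable (ph i a J W) haar := by
    refine int_cont haar_norm ?_
    have e1 := continuous_h i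
    have e2 := continuous_gc i a J
    have e3 := continuous_rv W
    unfold ph
    exact (e1.mul e2).mul e3
  have hsum : ∫ z, ∑ j ∈ Finset.Ico a J, 16 * (‖P i j z - 1 / 2‖ ^ 2 * ‖rp ε W z‖) ∂haar ≤
      H / 2 := by
    rw [integral_finsetSum _ hi2]
    have h6 : ∀ j ∈ Finset.Ico a J,
        ∫ z, 16 * (‖P i j z - 1 / 2‖ ^ 2 * ‖rp ε W z‖) ∂haar ≤ 16 * (1 / 2) ^ j := by
      intro j hj
      rw [integral_const_mul]
      have := hsq j hj
      linarith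
    refine (Finset.sum_le_sum h6).trans ?_
    rw [← Finset.mul_sum]
    have h7 := geom_le a J
    linarith
  have hmain : ∫ z, (h i z * ‖rp ε W z‖ -
      ∑ j ∈ Finset.Ico a J, 16 * (‖P i j z - 1 / 2‖ ^ 2 * ‖rp ε W z‖)) ∂haar ≤
      ∫ z, ph i a J W z ∂haar := by
    refine integral_mono_ae (hi1.sub (integrable_finsetSum _ hi2)) hi3 ?_
    filter_upwards [haar_norm] with z hz
    rw [norm_rp_eq (fun _ _ => rfl) hz]
    have h6 : ∑ j ∈ Finset.Ico a J, 16 * (‖P i j z - 1 / 2‖ ^ 2 * rv W z) =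
        (∑ j ∈ Finset.Ico a J, 16 * ‖P i j z - 1 / 2‖ ^ 2) * rv W z := by
      rw [Finset.sum_mul]
      exact Finset.sum_congr rfl fun j _ => by ring
    rw [h6]
    exact bas_pt (h_nonneg i z) (h_le_one i z) (rv_nonneg W z)
      (Finset.sum_nonneg fun _ _ => by positivity) (gc_ge i a J z)
  rw [integral_sub hi1 (integrable_finsetSum _ hi2)] at hmain
  linarith

end Forcing.RJ
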