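import Pool.Agent.Lib.MP_c80ac4_an.RJ.Cut
import Pool.Agent.Lib.MP_c80ac4_an.RJ.Bump
import Pool.Agent.Lib.MP_c80ac4_an.RJ.Rv
import Pool.Agent.Lib.MP_c80ac4_an.RJ.Arv

/-!
# Row PHI: the base measure and its Fourier decay, against the next frequency

PROOF of `exists_base`. Let `Λ₁` be the Lipschitz constant of `h i * gc i a J` (`BL.mul`; it is
bounded by 1). For `W = lo i a k`, `ph i a J W` is Lipschitz with constant
`Λ₁ 2^|W| + 2^|W| ∑ W ≤ 2^(k+1) (Λ₁ + 2 tau k)` (`rv_lip`, `rv_le`, `card_lo`, `sum_lo`), and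
`∫ ph ≥ H / 4` (`Start`, `sub_lo`, `lo i a k ⊆ V i a (k+1)`), so by `dec_dens`
`C = π Λ / 2 / ∫ ph ≤ (2 π / H) 2^(k+1) (Λ₁ + 2 tau k)`. This is `≤ x tau (k+1)` for `k` large, as
`tau (k+1) = 16^(2k+3) tau k` (`tau_step`) and `tau k ≥ 1`: it is enough that
`(2 π / H) (Λ₁ + 2) 2^(k+1) ≤ x 16^(2k+3)`, and `16^(2k+3) ≥ 2^(k+1) * 2^k`.
-/

namespace Forcing.RJ

open Complex Metric Set MeasureTheory Filter Topology Forcing.RZ Forcing.UN

theorem ph_nonneg (i a J : ℕ) (W : Finset ℕ) (z : ℂ) : 0 ≤ ph i a J W z :=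
  mul_nonneg (mul_nonneg (h_nonneg i z) (gc_nonneg i a J z)) (rv_nonneg W z)

theorem continuous_ph (i a J : ℕ) (W : Finset ℕ) : Continuous (ph i a J W) :=
  ((continuous_h i).mul (continuous_gc i a J)).mul (continuous_rv W)

private theorem ph_lip (i a J : ℕ) (W : Finset ℕ) {Λ c s : ℝ} {m : ℕ} (hΛ0 : 0 ≤ Λ)
    (hΛ : ∀ z w : ℂ, ‖z‖ = 1 → ‖w‖ = 1 →
      |h i z * gc i a J z - h i w * gc i a J w| ≤ Λ * ‖z - w‖)
    (hc : c = 2 ^ m) (hW : W.card ≤ m) (hs : ∑ n ∈ W, (n : ℝ) ≤ s) :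
    ∀ z w : ℂ, ‖z‖ = 1 → ‖w‖ = 1 →
      |ph i a J W z - ph i a J W w| ≤ (Λ * c + c * s) * ‖z - w‖ := by
  intro z w hz hw
  have hs0 : 0 ≤ ∑ n ∈ W, (n : ℝ) := Finset.sum_nonneg fun _ _ => Nat.cast_nonneg _
  have hp : (2 : ℝ) ^ W.card ≤ c := by
    rw [hc]
    exact pow_le_pow_right₀ (by norm_num) hW
  have hp0 : (0 : ℝ) < 2 ^ W.card := by positivity
  have e : ph i a J W z - ph i a J W w =
      (h i z * gc i a J z - h i w * gc i a J w) * rv W z +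
        (h i w * gc i a J w) * (rv W z - rv W w) := by
    unfold ph
    ring
  rw [e]
  refine (abs_add_le _ _).trans ?_
  rw [abs_mul, abs_mul, abs_of_nonneg (rv_nonneg W z),
    abs_of_nonneg (mul_nonneg (h_nonneg i w) (gc_nonneg i a J w))]
  have h1 : |h i z * gc i a J z - h i w * gc i a J w| * rv W z ≤ (Λ * ‖z - w‖) * c :=
    mul_le_mul (hΛ z w hz hw) ((rv_le W hz).trans hp) (rv_nonneg W z) (by positivity)
  have h2 : h i w * gc i a J w ≤ 1 :=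
    mul_le_one₀ (h_le_one i w) (gc_nonneg i a J w) (gc_le_one i a J w)
  have h3 : (2 : ℝ) ^ W.card * (∑ n ∈ W, (n : ℝ)) * ‖z - w‖ ≤ c * s * ‖z - w‖ :=
    mul_le_mul_of_nonneg_right (mul_le_mul hp hs hs0 (hp0.le.trans hp)) (norm_nonneg _)
  have h4 : (h i w * gc i a J w) * |rv W z - rv W w| ≤ 1 * (c * s * ‖z - w‖) :=
    mul_le_mul h2 ((rv_lip W hz hw).trans h3) (abs_nonneg _) zero_le_one
  nlinarith

theorem exists_base {i a : ℕ} (ha : Start i a) (J K : ℕ) {x : ℝ} (hx : 0 < x) :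
    ∃ k : ℕ, K ≤ k ∧ V i a J ⊆ lo i a k ∧ 1 / 4 * ∫ z, h i z ∂haar ≤
      ∫ z, ph i a J (lo i a k) z ∂haar ∧ ∃ C : ℝ, 0 ≤ C ∧ C ≤ x * tau (k + 1) ∧
      Dec (dens (ph i a J (lo i a k))) C 1 := by
  obtain ⟨B, Λ, -, hΛ0, -, hΛ⟩ := (BL_h i).mul (BL_gc i a J)
  have hH := int_h_pos i
  obtain ⟨K0, hK0⟩ := sub_lo i a J
  obtain ⟨M, hM⟩ := exists_nat_ge (2 * Real.pi / (∫ z, h i z ∂haar) * (Λ + 2) / x)
  obtain ⟨k, hk1, hk2, hk3⟩ : ∃ k, K ≤ k ∧ K0 ≤ k ∧ M ≤ k :=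
    ⟨max K (max K0 M), le_max_left _ _, (le_max_left _ _).trans (le_max_right _ _),
      (le_max_right _ _).trans (le_max_right _ _)⟩
  have hsub : V i a J ⊆ lo i a k := hK0 k hk2
  have hI : 1 / 4 * ∫ z, h i z ∂haar ≤ ∫ z, ph i a J (lo i a k) z ∂haar :=
    ha.2 J (k + 1) _ hsub (Finset.filter_subset _ _)
  have hI0 : 0 < ∫ z, ph i a J (lo i a k) z ∂haar := by linarith
  have hL := ph_lip i a J (lo i a k) hΛ0 hΛ rfl (card_lo i a k) (sum_lo i a k)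
  have ht0 : (1 : ℝ) ≤ tau k := by exact_mod_cast tau_pos k
  have hpi := Real.pi_pos
  refine ⟨k, hk1, hsub, hI, _, ?_, ?_,
    dec_dens (continuous_ph i a J _) (ph_nonneg i a J _) hI0 hL⟩
  · positivity
  · generalize (∫ z, ph i a J (lo i a k) z ∂haar) = I at hI hI0
    generalize (∫ z, h i z ∂haar) = H at hH hI hM
    have h1 : (16 : ℝ) ^ (2 * k + 3) * tau k ≤ tau (k + 1) := by
      exact_mod_cast tau_step (Nat.lt_succ_self k)
    have h2 : (2 : ℝ) ^ (k + 1) * 2 ^ k ≤ 16 ^ (2 * k + 3) := by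
      have : (16 : ℝ) ^ (2 * k + 3) = 2 ^ (4 * (2 * k + 3)) := by
        rw [pow_mul]
        norm_num
      rw [this, ← pow_add]
      exact pow_le_pow_right₀ (by norm_num) (by omega)
    have h3 : 2 * Real.pi / H * (Λ + 2) ≤ x * 2 ^ k := by
      rw [div_le_iff₀ hx] at hM
      have h4 : (M : ℝ) ≤ 2 ^ k := by
        have h5 : M ≤ 2 ^ k := hk3.trans (Nat.lt_two_pow_self).le
        exact_mod_cast h5
      nlinarith
    have h6 : Real.pi * (Λ * 2 ^ (k + 1) + 2 ^ (k + 1) * (2 * (tau k : ℝ))) / 2 ≤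
        Real.pi / 2 * (2 ^ (k + 1) * ((Λ + 2) * tau k)) := by
      have h7 : Λ ≤ Λ * tau k := by nlinarith
      have h8 : Λ * 2 ^ (k + 1) + 2 ^ (k + 1) * (2 * (tau k : ℝ)) ≤
          2 ^ (k + 1) * ((Λ + 2) * tau k) := by
        have h9 : (0 : ℝ) ≤ 2 ^ (k + 1) := by positivity
        nlinarith
      nlinarith
    rw [div_le_iff₀ hI0]
    refine h6.trans ?_
    have h10 : x * (16 ^ (2 * k + 3) * tau k) * (H / 4) ≤ x * tau (k + 1) * I := by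
      have h11 : x * (16 ^ (2 * k + 3) * (tau k : ℝ)) ≤ x * tau (k + 1) :=
        mul_le_mul_of_nonneg_left h1 hx.le
      have h12 : H / 4 ≤ I := by linarith
      exact mul_le_mul h11 h12 (by positivity) (by positivity)
    refine le_trans ?_ h10
    have h13 : Real.pi / 2 * (2 ^ (k + 1) * ((Λ + 2) * tau k)) =
        (2 * Real.pi / H * (Λ + 2)) * (2 ^ (k + 1) * tau k * (H / 4)) := by
      field_simp
      ring
    rw [h13]
    have h14 : x * (16 ^ (2 * k + 3) * (tau k : ℝ)) * (H / 4) =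
        (x * 16 ^ (2 * k + 3)) * (tau k * (H / 4)) := by ring
    rw [h14]
    have h15 : (2 * Real.pi / H * (Λ + 2)) * (2 ^ (k + 1) * tau k * (H / 4)) =
        ((2 * Real.pi / H * (Λ + 2)) * 2 ^ (k + 1)) * (tau k * (H / 4)) := by ring
    rw [h15]
    refine mul_le_mul_of_nonneg_right ?_ (by positivity)
    calc (2 * Real.pi / H * (Λ + 2)) * 2 ^ (k + 1) ≤ (x * 2 ^ k) * 2 ^ (k + 1) :=
          mul_le_mul_of_nonneg_right h3 (by positivity)
      _ = x * (2 ^ (k + 1) * 2 ^ k) := by ring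
      _ ≤ x * 16 ^ (2 * k + 3) := mul_le_mul_of_nonneg_left h2 hx.le

end Forcing.RJ
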