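import Pool.Agent.Lib.MP_c80ac4_an.RJ.Cut
import Pool.Agent.Lib.MP_c80ac4_an.RJ.Bump

/-!
# Row TT: `exists_T` (compactness, as CX/Cut2.lean) and `pointwise` (as CX/Cut2.lean)

`pointwise`: if `h i z = 0` the left side is 0. Otherwise `z` is in the arc (`h_supp`). If
`gc i a J z = 0` the left side is 0. Otherwise `‖P i j z - 1/2‖ < 1/4` for `a ≤ j < J`. If this
holds with `≤` for all `a ≤ j < T` then `‖f z‖ ≤ M`, otherwise there is `j ∈ [J, T)`, `a ≤ j`, with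
`16 ‖P i j z - 1/2‖² ≥ 1`. Here `J ≥ a`, `h ≤ 1`, `gc ≤ 1`.
-/

namespace Forcing.RJ

open Complex Metric Set MeasureTheory Filter Topology Forcing.RZ Forcing.UN

theorem exists_T {i a : ℕ} {f : ℂ → ℂ} (hf : Continuous f) {M θ : ℝ} (hθ : 0 < θ)
    (hM : ∀ z ∈ Eg i a, ‖f z‖ ≤ M) (K : ℕ) :
    ∃ T : ℕ, K ≤ T ∧ ∀ z : ℂ, ‖z‖ = 1 → (1 / 2 : ℝ) ^ (i + 1) ≤ ‖z - 1‖ →
      ‖z - 1‖ ≤ (1 / 2 : ℝ) ^ i → (∀ j, a ≤ j → j < T → ‖P i j z - 1 / 2‖ ≤ 1 / 4) →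
      ‖f z‖ ≤ M + θ := by
  by_contra hcon
  push Not at hcon
  have hcon' : ∀ n : ℕ, ∃ z : ℂ, ‖z‖ = 1 ∧ (1 / 2 : ℝ) ^ (i + 1) ≤ ‖z - 1‖ ∧
      ‖z - 1‖ ≤ (1 / 2 : ℝ) ^ i ∧ (∀ j, a ≤ j → j < n → ‖P i j z - 1 / 2‖ ≤ 1 / 4) ∧
      M + θ < ‖f z‖ := by
    intro n
    obtain ⟨z, h1, h2, h3, h4, h5⟩ := hcon (K + n) (Nat.le_add_right _ _)
    exact ⟨z, h1, h2, h3, fun j hj hj' => h4 j hj (by omega), h5⟩
  choose z hz1 hz2 hz3 hz4 hz5 using hcon'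
  obtain ⟨b, hb, φ, hφ, hlim⟩ := (isCompact_sphere (0 : ℂ) 1).tendsto_subseq
    (x := z) (fun n => by simpa using hz1 n)
  have hc : Tendsto (fun n => ‖(z ∘ φ) n - 1‖) atTop (𝓝 ‖b - 1‖) :=
    ((continuous_id.sub continuous_const).norm.tendsto b).comp hlim
  have h1 : b ∈ Eg i a := by
    refine ⟨by simpa using hb, ge_of_tendsto' hc fun n => hz2 _, le_of_tendsto' hc fun n => hz3 _,
      fun j hj => ?_⟩
    have h2 : Tendsto (fun n => ‖P i j ((z ∘ φ) n) - 1 / 2‖) atTop (𝓝 ‖P i j b - 1 / 2‖) :=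
      (((continuous_P i j).sub continuous_const).norm.tendsto b).comp hlim
    refine le_of_tendsto h2 ?_
    filter_upwards [eventually_gt_atTop j] with n hn
    exact hz4 _ j hj (lt_of_lt_of_le hn (hφ.id_le n))
  have h2 : Tendsto (fun n => ‖f ((z ∘ φ) n)‖) atTop (𝓝 ‖f b‖) :=
    (hf.norm.tendsto b).comp hlim
  have h3 : M + θ ≤ ‖f b‖ := ge_of_tendsto' h2 fun n => (hz5 _).le
  have h4 := hM b h1
  linarith

theorem pointwise {i a J T : ℕ} (haJ : a ≤ J) {f : ℂ → ℂ} {M S : ℝ} (hM0 : 0 ≤ M) (hS0 : 0 ≤ S)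
    (hT : ∀ z : ℂ, ‖z‖ = 1 → (1 / 2 : ℝ) ^ (i + 1) ≤ ‖z - 1‖ →
      ‖z - 1‖ ≤ (1 / 2 : ℝ) ^ i → (∀ j, a ≤ j → j < T → ‖P i j z - 1 / 2‖ ≤ 1 / 4) → ‖f z‖ ≤ M)
    {z : ℂ} (hz : ‖z‖ = 1) (hfS : ‖f z‖ ≤ S) :
    h i z * gc i a J z * ‖f z‖ ≤ M + S * ∑ j ∈ Finset.Ico J T, 16 * ‖P i j z - 1 / 2‖ ^ 2 := by
  have hsum0 : 0 ≤ ∑ j ∈ Finset.Ico J T, 16 * ‖P i j z - 1 / 2‖ ^ 2 :=
    Finset.sum_nonneg fun _ _ => by positivity
  have hh0 := h_nonneg i z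
  have hh1 := h_le_one i z
  have hg0 := gc_nonneg i a J z
  have hg1 := gc_le_one i a J z
  by_cases hh : h i z = 0
  · rw [hh, zero_mul, zero_mul]
    positivity
  obtain ⟨ha1, ha2⟩ := h_supp hh
  rcases eq_or_lt_of_le hg0 with h0 | h0
  · rw [← h0, mul_zero, zero_mul]
    positivity
  have hhg : h i z * gc i a J z ≤ 1 := mul_le_one₀ hh1 hg0 hg1
  have hmain : h i z * gc i a J z * ‖f z‖ ≤ ‖f z‖ := mul_le_of_le_one_left (norm_nonneg _) hhg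
  have hsmall : ∀ j, a ≤ j → j < J → ‖P i j z - 1 / 2‖ ≤ 1 / 4 := by
    intro j hja hj
    by_contra hcon
    push Not at hcon
    have h1 : (1 : ℝ) < 16 * ‖P i j z - 1 / 2‖ ^ 2 := by nlinarith
    have h5 : gc i a J z = 0 := by
      unfold gc
      refine Finset.prod_eq_zero (Finset.mem_Ico.2 ⟨hja, hj⟩) (max_eq_left ?_)
      linarith
    rw [h5] at h0
    exact lt_irrefl _ h0
  by_cases hall : ∀ j, a ≤ j → j < T → ‖P i j z - 1 / 2‖ ≤ 1 / 4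
  · have h1 := hT z hz ha1 ha2 hall
    have h2 := mul_nonneg hS0 hsum0
    linarith
  · push Not at hall
    obtain ⟨j, hja, hjT, hj⟩ := hall
    have hjJ : J ≤ j := by
      by_contra hcon
      exact absurd (hsmall j hja (not_le.1 hcon)) (not_le.2 hj)
    have h1 : (1 : ℝ) ≤ 16 * ‖P i j z - 1 / 2‖ ^ 2 := by nlinarith
    have h2 : (1 : ℝ) ≤ ∑ j ∈ Finset.Ico J T, 16 * ‖P i j z - 1 / 2‖ ^ 2 :=
      h1.trans (Finset.single_le_sum (f := fun j => (16 : ℝ) * ‖P i j z - 1 / 2‖ ^ 2)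
        (fun _ _ => by positivity) (Finset.mem_Ico.2 ⟨hjJ, hjT⟩))
    have h3 := mul_le_mul_of_nonneg_left h2 hS0
    linarith

end Forcing.RJ
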