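import Pool.Agent.Lib.MP_c80ac4_an.RJ.Sq
import Pool.Agent.Lib.MP_c80ac4_an.RJ.Tt
import Pool.Agent.Lib.MP_c80ac4_an.RJ.Phi
import Pool.Agent.Lib.MP_c80ac4_an.RJ.Lac

/-!
# Row KEY: the integral of `f` (adaptation of `key` in `Forcing.UN.class_main`, UN/Main.lean)

PROOF. `Wl = lo i a k`, `Wh = (V i a T).filter (¬ · < tau (k+1))`, `V i a T = Wl ∪ Wh` disjoint
(`V_lo`, `k < T`). `G = ∫ ph i a J Wl ≥ H / 4 > 0`, so `ph / G ≤ (4 / H) ph`. On the circle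
`rv Wl z * ‖rp ε (A ∪ Wh) z‖ = ‖rp ε (A ∪ V i a T) z‖` (`norm_rp_union` three times; `A` is disjoint
from `V i a T` by `disj_W`, `ε = 1` off `A`). By `integral_dens` and `pointwise` the integral is at most
`(4/H) ∫ (M + S ∑ j ∈ Ico J T, 16 ‖P i j - 1/2‖²) ‖rp ε (A ∪ V i a T)‖ dhaar`, and
`∫ ‖rp‖ = 1` (`int_rp_haar` with `exists_par`, `Q = 5`, `c = 1/4`), `∫ ‖P i j - 1/2‖² ‖rp‖ ≤ (1/2)^j`
(`sq_P`, `fr i j ⊆ V i a T` as `a ≤ J ≤ j < T`), `geom_le`. (`A ∪ V i a T` is 5-lacunary by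
`lac_union` with `K = a ≥ 1`.)
-/

namespace Forcing.RJ

open Complex Metric Set MeasureTheory Filter Topology Forcing.RZ Forcing.UN

private theorem key_mul_rp {ψ : ℂ → ℝ} (hψ : Continuous ψ) {ε : ℕ → ℂ} (hε : ∀ n, ‖ε n‖ ≤ 1)
    (A : Finset ℕ) : Integrable (fun z => ψ z * ‖rp ε A z‖) haar := by
  obtain ⟨B, hB⟩ := (isCompact_sphere (0 : ℂ) 1).exists_bound_of_continuousOn hψ.continuousOn
  refine int_bdd haar_norm (hψ.measurable.mul (meas_rp ε A).norm).aestronglyMeasurable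
    (B := B * 2 ^ A.card) fun z hz => ?_
  have hB0 := (norm_nonneg _).trans (hB z (by simpa using hz))
  rw [norm_mul, norm_norm]
  exact mul_le_mul (hB z (by simpa using hz)) (norm_rp_le hε A hz) (norm_nonneg _) hB0

theorem key_int {i a J T k : ℕ} (ha : 1 ≤ a) (haJ : a ≤ J) (hkT : k < T)
    (hG : 1 / 4 * ∫ z, h i z ∂haar ≤ ∫ z, ph i a J (lo i a k) z ∂haar) {f : ℂ → ℂ}
    (hf : Continuous f) {M S : ℝ} (hM0 : 0 ≤ M) (hS0 : 0 ≤ S)
    (hT : ∀ z : ℂ, ‖z‖ = 1 → (1 / 2 : ℝ) ^ (i + 1) ≤ ‖z - 1‖ →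
      ‖z - 1‖ ≤ (1 / 2 : ℝ) ^ i → (∀ j, a ≤ j → j < T → ‖P i j z - 1 / 2‖ ≤ 1 / 4) → ‖f z‖ ≤ M)
    (hS : ∀ z : ℂ, ‖z‖ = 1 → ‖f z‖ ≤ S) {A : Finset ℕ} (hA : Lc 5 A) (hA1 : ∀ n ∈ A, 1 ≤ n)
    (hAw : Away i A) {ε : ℕ → ℂ} (hε : ∀ n, ‖ε n‖ ≤ 1) (hε1 : ∀ n, n ∉ A → ε n = 1) :
    ∫ z, ‖f z‖ * ‖rp ε (A ∪ (V i a T).filter fun n => ¬ n < tau (k + 1)) z‖
      ∂(dens (ph i a J (lo i a k))) ≤
      4 / (∫ z, h i z ∂haar) * (M + 32 * (1 / 2) ^ J * S) := by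
  classical
  have hH := int_h_pos i
  set H := ∫ z, h i z ∂haar with hHd
  have hG0 : 0 < ∫ z, ph i a J (lo i a k) z ∂haar := by linarith
  rw [integral_dens (continuous_ph i a J _) (ph_nonneg i a J _) hG0]
  set G := ∫ z, ph i a J (lo i a k) z ∂haar with hGd
  set Wh : Finset ℕ := (V i a T).filter fun n => ¬ n < tau (k + 1) with hWh
  set U : Finset ℕ := A ∪ V i a T with hU
  have hdis : Disjoint A (V i a T) := disj_W (Fr_V i a T) hAw
  have hloV : lo i a k ⊆ V i a T := by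
    rw [← V_lo hkT]
    exact Finset.filter_subset _ _
  have hεV : ∀ n ∈ V i a T, ε n = 1 := fun n hn => hε1 n fun hnA =>
    (Finset.disjoint_left.1 hdis) hnA hn
  have hUeq : (A ∪ Wh) ∪ lo i a k = U := by
    rw [hU, ← V_lo hkT, hWh, Finset.union_assoc, Finset.union_comm ((V i a T).filter fun n => ¬ n < tau (k + 1)),
      Finset.filter_union_filter_not_eq]
  have hdis2 : Disjoint (A ∪ Wh) (lo i a k) := by
    rw [Finset.disjoint_union_left]
    refine ⟨Finset.disjoint_of_subset_right hloV hdis, ?_⟩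
    rw [← V_lo hkT, hWh]
    exact (Finset.disjoint_filter_filter_not _ _ _).symm
  have hrp : ∀ z : ℂ, ‖z‖ = 1 → ‖rp ε (A ∪ Wh) z‖ * rv (lo i a k) z = ‖rp ε U z‖ := by
    intro z hz
    rw [← hUeq, norm_rp_union hdis2 (fun n hn => hεV n (hloV hn)) hz]
  have hLU : Lc 5 U := by
    refine lac_union (K := a) ?_ (Fr_V i a T) hA hAw
    calc (5 : ℝ) ≤ 16 ^ 1 := by norm_num
      _ ≤ 16 ^ a := pow_le_pow_right₀ (by norm_num) ha
  have hNU : ∀ m ∈ U, 1 ≤ m := by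
    intro m hm
    rw [hU, Finset.mem_union] at hm
    rcases hm with hm | hm
    · exact hA1 m hm
    · obtain ⟨j, l, -, -, -, rfl⟩ := mem_V.1 hm
      exact tau_pos _
  have hpar : Par 5 1 0 (1 / 4) 0 1 := exists_par (by norm_num) (by norm_num) (by norm_num) (by norm_num)
  have hone : ∫ z, ‖rp ε U z‖ ∂haar = 1 := int_rp_haar hpar hε U hLU hNU
  have hint1 : Integrable (fun z => (ph i a J (lo i a k) z / G) • (‖f z‖ * ‖rp ε (A ∪ Wh) z‖)) haar := by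
    have h1 : Continuous fun z => (ph i a J (lo i a k) z / G) * ‖f z‖ := by
      have := continuous_ph i a J (lo i a k)
      fun_prop
    refine (key_mul_rp h1 hε (A ∪ Wh)).congr (Eventually.of_forall fun z => ?_)
    simp only [smul_eq_mul]
    ring
  have hint2 : ∀ j ∈ Finset.Ico J T,
      Integrable (fun z => (16 * ‖P i j z - 1 / 2‖ ^ 2) * ‖rp ε U z‖) haar := by
    intro j _
    refine key_mul_rp ?_ hε U
    have := continuous_P i j
    fun_prop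
  have hint3 : Integrable (fun z => ‖rp ε U z‖) haar := by
    have := key_mul_rp (ψ := fun _ => 1) continuous_const hε U
    simpa using this
  have hint4 : Integrable (fun z => ∑ j ∈ Finset.Ico J T,
      (16 * ‖P i j z - 1 / 2‖ ^ 2) * ‖rp ε U z‖) haar := integrable_finsetSum _ hint2
  have h1 : ∫ z, (ph i a J (lo i a k) z / G) • (‖f z‖ * ‖rp ε (A ∪ Wh) z‖) ∂haar ≤
      ∫ z, (4 / H * M * ‖rp ε U z‖ + 4 / H * S * ∑ j ∈ Finset.Ico J T,
        (16 * ‖P i j z - 1 / 2‖ ^ 2) * ‖rp ε U z‖) ∂haar := by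
    refine integral_mono_ae hint1 ((hint3.const_mul _).add (hint4.const_mul _)) ?_
    filter_upwards [haar_norm] with z hz
    have h2 := pointwise haJ hM0 hS0 hT hz (hS z hz)
    have h3 := hrp z hz
    have h4 : 0 ≤ h i z * gc i a J z * ‖f z‖ :=
      mul_nonneg (mul_nonneg (h_nonneg i z) (gc_nonneg i a J z)) (norm_nonneg _)
    have h5 : (h i z * gc i a J z * ‖f z‖) / G ≤ 4 / H * (h i z * gc i a J z * ‖f z‖) := by
      rw [div_le_iff₀ hG0]
      have h6 : 1 ≤ 4 / H * G := by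
        rw [div_mul_eq_mul_div, le_div_iff₀ hH]
        linarith
      calc h i z * gc i a J z * ‖f z‖ = (h i z * gc i a J z * ‖f z‖) * 1 := (mul_one _).symm
        _ ≤ (h i z * gc i a J z * ‖f z‖) * (4 / H * G) := mul_le_mul_of_nonneg_left h6 h4
        _ = _ := by ring
    have h7 : 0 ≤ ‖rp ε U z‖ := norm_nonneg _
    simp only [smul_eq_mul]
    rw [← Finset.sum_mul]
    calc ph i a J (lo i a k) z / G * (‖f z‖ * ‖rp ε (A ∪ Wh) z‖)
        = (h i z * gc i a J z * ‖f z‖) / G * (‖rp ε (A ∪ Wh) z‖ * rv (lo i a k) z) := by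
          unfold ph
          ring
      _ = (h i z * gc i a J z * ‖f z‖) / G * ‖rp ε U z‖ := by rw [h3]
      _ ≤ (4 / H * (M + S * ∑ j ∈ Finset.Ico J T, 16 * ‖P i j z - 1 / 2‖ ^ 2)) * ‖rp ε U z‖ :=
          mul_le_mul_of_nonneg_right (h5.trans (mul_le_mul_of_nonneg_left h2 (by positivity))) h7
      _ = _ := by ring
  refine h1.trans ?_
  rw [integral_add (hint3.const_mul _) (hint4.const_mul _), integral_const_mul,
    integral_const_mul, integral_finsetSum _ hint2, hone]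
  have h6 : ∑ j ∈ Finset.Ico J T, ∫ z, ((16 : ℝ) * ‖P i j z - 1 / 2‖ ^ 2) * ‖rp ε U z‖ ∂haar ≤
      32 * (1 / 2 : ℝ) ^ J := by
    calc ∑ j ∈ Finset.Ico J T, ∫ z, ((16 : ℝ) * ‖P i j z - 1 / 2‖ ^ 2) * ‖rp ε U z‖ ∂haar
        ≤ ∑ j ∈ Finset.Ico J T, 16 * (1 / 2 : ℝ) ^ j := by
          refine Finset.sum_le_sum fun j hj => ?_
          rw [Finset.mem_Ico] at hj
          have hfr : fr i j ⊆ V i a T := fr_subset (haJ.trans hj.1) hj.2
          simp_rw [mul_assoc]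
          rw [integral_const_mul]
          refine mul_le_mul_of_nonneg_left ?_ (by norm_num)
          exact sq_P hε hLU hNU (hfr.trans Finset.subset_union_right) fun n hn => hεV n (hfr hn)
      _ = 16 * ∑ j ∈ Finset.Ico J T, (1 / 2 : ℝ) ^ j := by rw [Finset.mul_sum]
      _ ≤ 16 * (2 * (1 / 2) ^ J) := mul_le_mul_of_nonneg_left (geom_le J T) (by norm_num)
      _ = 32 * (1 / 2 : ℝ) ^ J := by ring
  have h8 : 0 ≤ 4 / H * S := by positivity
  have h9 := mul_le_mul_of_nonneg_left h6 h8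
  calc 4 / H * M * 1 + 4 / H * S * ∑ j ∈ Finset.Ico J T, ∫ z, ((16 : ℝ) * ‖P i j z - 1 / 2‖ ^ 2) * ‖rp ε U z‖ ∂haar
      ≤ 4 / H * M * 1 + 4 / H * S * (32 * (1 / 2 : ℝ) ^ J) := by linarith
    _ = _ := by ring

end Forcing.RJ
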