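import Pool.Agent.Lib.MP_c80ac4_an.RJ.Cls
import Pool.Agent.Lib.MP_c80ac4_an.RJ.Key

/-!
# Row CM: one class of frequencies, for one group

PROOF. `H = ∫ h i > 0`. `J ≥ a` with `4 / H * 32 (1/2)^J ≤ κ / 2`; `κ' = min (κ / 10) (1/2)`;
`K` with `Q ≤ 16^(K+1)`; `exists_base` with `x = c κ'` gives `k ≥ K` and `C`; `N = tau (k+1)`,
`Par Q 1 C c κ' N` (`C (c N)^(-1) ≤ κ'`). Given `s`, `b`, `M`, `A` and `δ > 0`: `exists_T` with
`θ = δ`, `K = k + 1` gives `T`. Apply `class_fin` with `μ = dens (ph i a J (lo i a k))`,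
`W = (V i a T).filter (¬ · < tau (k+1))` (all its elements are `≥ N`; `Fr_hi`: index `≥ k+1`, so
`lac_union` and `sep_W` with `K = k + 1` apply), `R = nr i s`, and `B` from `key_int` with `M + δ`
and `S = ∑ n ∈ s, ‖b n‖` (`A` is 5-lacunary as `Q ≥ 5`). `hsep`: for `n ∈ A` by `RZ.sep` and the
lacunarity of `s`, for `n ∈ W` by `sep_W` (`2 c ≤ 1/2`). `hWs`: an element of `W` is near itself
(`near_self`). Then `δ → 0` (`le_of_forall_pos_le_add`).
-/

namespace Forcing.RJ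

open Complex Metric Set MeasureTheory Filter Topology Forcing.RZ Forcing.UN

theorem class_main {i a : ℕ} (ha : Start i a) {q Q c κ : ℝ} (hq : 1 < q) (hQ : 5 ≤ Q)
    (hc0 : 0 < c) (hc1 : 2 * c ≤ 1 / 2) (hcq : 2 * c ≤ 1 - 1 / q) (hQc : 1 / (Q - 1) ≤ c)
    (hκ : 0 < κ) :
    ∃ N : ℕ, 1 ≤ N ∧ ∀ (s : Finset ℕ) (b : ℕ → ℂ) (M : ℝ), LacSet q N (s : Set ℕ) → 0 ≤ M →
      (∀ z ∈ Eg i a, ‖∑ n ∈ s, b n * z ^ n‖ ≤ M) → ∀ A ⊆ s, Lc Q A → Away i A →
      1 / 2 * ∑ n ∈ A, ‖b n‖ ≤ 4 / (∫ z, h i z ∂haar) * M + κ * ∑ n ∈ s, ‖b n‖ +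
        2 * ∑ n ∈ nr i s, ‖b n‖ := by
  obtain ⟨ha1, -⟩ := id ha
  set H : ℝ := ∫ z, h i z ∂haar with hHd
  have hH : 0 < H := int_h_pos i
  obtain ⟨J₀, hJ₀⟩ : ∃ J : ℕ, (1 / 2 : ℝ) ^ J < κ * H / 256 :=
    exists_pow_lt_of_lt_one (by positivity) (by norm_num)
  set J : ℕ := max a J₀ with hJd
  have haJ : a ≤ J := le_max_left _ _
  have hJ : (1 / 2 : ℝ) ^ J ≤ κ * H / 256 :=
    (pow_le_pow_of_le_one (by norm_num) (by norm_num) (le_max_right a J₀)).trans hJ₀.le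
  have hJ2 : 4 / H * (32 * (1 / 2 : ℝ) ^ J) ≤ κ / 2 := by
    rw [div_mul_eq_mul_div, div_le_iff₀ hH]
    nlinarith
  set κ' : ℝ := min (κ / 10) (1 / 2) with hκd
  have hκ'0 : 0 < κ' := lt_min (by positivity) (by norm_num)
  have hκ'1 : κ' ≤ κ / 10 := min_le_left _ _
  have hκ'2 : κ' ≤ 1 / 2 := min_le_right _ _
  obtain ⟨K, hK⟩ := pow_unbounded_of_one_lt Q (by norm_num : (1 : ℝ) < 16)
  obtain ⟨k, hKk, -, hG, C, hC0, hC, hdec⟩ := exists_base ha J K (mul_pos hc0 hκ'0)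
  have hQk : Q ≤ 16 ^ (k + 1) := hK.le.trans (pow_le_pow_right₀ (by norm_num) (by omega))
  have hG0 : 0 < ∫ z, ph i a J (lo i a k) z ∂haar := by
    have : 0 < 1 / 4 * H := by positivity
    linarith
  have hprob := dens_prob (continuous_ph i a J (lo i a k)) (ph_nonneg i a J (lo i a k)) hG0
  have hN1 : 1 ≤ tau (k + 1) := tau_pos _
  have hN0 : (0 : ℝ) < (tau (k + 1) : ℕ) := by exact_mod_cast hN1
  have hpar : Par Q 1 C c κ' (tau (k + 1)) := by
    refine ⟨by linarith, by rw [Real.rpow_one]; linarith, one_pos, hC0, hc0, by linarith, hQc,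
      hN1, ?_⟩
    rw [Real.rpow_neg_one, ← div_eq_mul_inv, div_le_iff₀ (by positivity)]
    linarith
  refine ⟨tau (k + 1), hN1, fun s b M hs hM0 hM A hAs hA hAw => ?_⟩
  set S := ∑ n ∈ s, ‖b n‖ with hS
  have hS0 : 0 ≤ S := Finset.sum_nonneg fun _ _ => norm_nonneg _
  set f : ℂ → ℂ := fun z => ∑ n ∈ s, b n * z ^ n with hf
  have hfc : Continuous f := by
    simp only [hf]
    fun_prop
  have hfS : ∀ z : ℂ, ‖z‖ = 1 → ‖f z‖ ≤ S := by
    intro z hz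
    refine (norm_sum_le _ _).trans (le_of_eq ?_)
    refine Finset.sum_congr rfl fun n _ => ?_
    rw [norm_mul, norm_pow, hz, one_pow, mul_one]
  refine le_of_forall_pos_le_add fun δ hδ => ?_
  have hθ : 0 < δ * H / 4 := by positivity
  obtain ⟨T, hKT, hT⟩ := exists_T hfc hθ hM (k + 1)
  have hA5 : Lc 5 A := by
    intro m hm n hn hmn
    have h1 := hA m hm n hn hmn
    have h2 : (5 : ℝ) * m ≤ Q * m := mul_le_mul_of_nonneg_right hQ (Nat.cast_nonneg m)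
    linarith
  have hmR : ∀ m ∈ s, m ∉ nr i s → ∀ l, gr l = i → ¬ Near l m := fun m hm hmR l hl hn =>
    hmR (mem_nr.2 ⟨hm, l, hl, hn⟩)
  have hfin := class_fin (W := (V i a T).filter fun n => ¬ n < tau (k + 1)) (R := nr i s)
    (dens_norm _) hpar hdec hκ'2 b (fun m hm => (hs.1 m hm).2) hAs
    (fun n hn => (mem_nr.1 hn).1)
    (Finset.disjoint_left.2 fun n hn hnR => by
      obtain ⟨-, l, hl, hnl⟩ := mem_nr.1 hnR
      exact hAw n hn l hl hnl)
    (fun m hm => not_lt.1 (Finset.mem_filter.1 hm).2)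
    (fun m hm hmR' hmW => by
      obtain ⟨l, hl, -, rfl⟩ := Fr_hi i a T k m hmW
      exact hmR _ hm hmR' l hl (near_self l))
    (lac_union hQk (Fr_hi i a T k) hA hAw)
    (fun m hm hmR' n hn hne => by
      have hn0 : (0 : ℝ) ≤ n := Nat.cast_nonneg n
      rcases Finset.mem_union.1 hn with hn | hn
      · have h1 := sep hq (m := m) (n := n) (fun hlt => hs.2 m hm n (hAs hn) hlt)
          (fun hlt => hs.2 n (hAs hn) m hm hlt) hne
        have h2 := mul_le_mul_of_nonneg_right hcq hn0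
        linarith
      · have h1 := sep_W (m := m) (Nat.le_add_left 1 k) (Fr_hi i a T k n hn) (hmR m hm hmR')
        have h2 := mul_le_mul_of_nonneg_right hc1 hn0
        linarith)
    (B := 4 / H * (M + δ * H / 4 + 32 * (1 / 2) ^ J * S))
    (fun ε hε hε1 => key_int ha1 haJ (by omega) hG hfc (by positivity) hS0 hT hfS hA5
      (fun n hn => (hs.1 n (hAs hn)).1) hAw hε hε1)
  have h1 : 4 / H * (M + δ * H / 4 + 32 * (1 / 2) ^ J * S) =
      4 / H * M + δ + (4 / H * (32 * (1 / 2) ^ J)) * S := by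
    field_simp
  have h2 := mul_le_mul_of_nonneg_right hJ2 hS0
  have h3 := mul_le_mul_of_nonneg_right hκ'1 hS0
  rw [h1] at hfin
  linarith

end Forcing.RJ
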