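import Pool.Agent.Lib.MP_c80ac4_an.RJ.Defs

/-!
# Row CLO: the set is a closed subset of the circle

PROOF. Each `Eg i a` is closed (`continuous_P`, norms). `ES a` is the intersection over `n` of the
closed sets `(sphere 0 1 ∩ closedBall 1 ((1/2)^n)) ∪ ⋃ i < n, Eg i (a i)`: for `i ≥ n`,
`Eg i (a i) ⊆ closedBall 1 ((1/2)^n)`; if `z ≠ 1` is in the intersection, take `n` with
`(1/2)^n < ‖z - 1‖`.
-/

namespace Forcing.RJ

open Complex Metric Set MeasureTheory Filter Topology Forcing.RZ Forcing.UN

private theorem clo_Eg (i a : ℕ) : IsClosed (Eg i a) := by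
  have h1 : Eg i a = {z : ℂ | ‖z‖ = 1} ∩ ({z : ℂ | (1 / 2 : ℝ) ^ (i + 1) ≤ ‖z - 1‖} ∩
      ({z : ℂ | ‖z - 1‖ ≤ (1 / 2 : ℝ) ^ i} ∩ ⋂ j, ⋂ (_ : a ≤ j), {z : ℂ | ‖P i j z - 1 / 2‖ ≤ 1 / 4})) := by
    ext z
    simp only [Eg, Set.mem_ofPred_eq, Set.mem_inter_iff, Set.mem_iInter]
  rw [h1]
  exact (isClosed_eq continuous_norm continuous_const).inter
    ((isClosed_le continuous_const ((continuous_id.sub continuous_const).norm)).inter
    ((isClosed_le ((continuous_id.sub continuous_const).norm) continuous_const).inter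
    (isClosed_iInter fun j => isClosed_iInter fun _ =>
      isClosed_le (((continuous_P i j).sub continuous_const).norm) continuous_const)))

theorem isClosed_ES (a : ℕ → ℕ) : IsClosed (ES a) := by
  have h1 : ES a = ⋂ n : ℕ, ((sphere (0 : ℂ) 1 ∩ closedBall 1 ((1 / 2 : ℝ) ^ n)) ∪
      ⋃ i ∈ (Finset.range n : Set ℕ), Eg i (a i)) := by
    apply Set.Subset.antisymm
    · intro z hz
      rw [Set.mem_iInter]
      intro n
      rcases hz with hz | hz
      · left
        rw [Set.mem_singleton_iff] at hz
        subst hz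
        constructor
        · rw [mem_sphere_zero_iff_norm, norm_one]
        · rw [mem_closedBall, dist_self]
          positivity
      · obtain ⟨i, hi⟩ := Set.mem_iUnion.1 hz
        by_cases hin : i < n
        · right
          rw [Set.mem_iUnion₂]
          exact ⟨i, Finset.mem_coe.2 (Finset.mem_range.2 hin), hi⟩
        · left
          constructor
          · rw [mem_sphere_zero_iff_norm]
            exact hi.1
          · rw [mem_closedBall, dist_eq_norm]
            exact hi.2.2.1.trans (pow_le_pow_of_le_one (by norm_num) (by norm_num) (not_lt.1 hin))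
    · intro z hz
      by_cases h : z = 1
      · left
        exact h
      · right
        have h2 : 0 < ‖z - 1‖ := norm_pos_iff.2 (sub_ne_zero.2 h)
        obtain ⟨n, hn⟩ := exists_pow_lt_of_lt_one h2 (show (1 / 2 : ℝ) < 1 by norm_num)
        rcases Set.mem_iInter.1 hz n with h3 | h3
        · exfalso
          have h4 := h3.2
          rw [mem_closedBall, dist_eq_norm] at h4
          exact absurd hn (not_lt.2 h4)
        · rw [Set.mem_iUnion₂] at h3
          obtain ⟨i, -, hi⟩ := h3
          exact Set.mem_iUnion.2 ⟨i, hi⟩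
  rw [h1]
  refine isClosed_iInter fun n => IsClosed.union (isClosed_sphere.inter isClosed_closedBall) ?_
  exact (Finset.finite_toSet _).isClosed_biUnion fun i _ => clo_Eg i (a i)

theorem ES_subset (a : ℕ → ℕ) : ES a ⊆ sphere 0 1 := by
  intro z hz
  rw [mem_sphere_zero_iff_norm]
  rcases hz with hz | hz
  · rw [Set.mem_singleton_iff] at hz
    rw [hz, norm_one]
  · obtain ⟨i, hi⟩ := Set.mem_iUnion.1 hz
    exact hi.1

end Forcing.RJ
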