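import Pool.Agent.Lib.MP_c80ac4_an.RJ.Defs

/-!
# Row CLS: the bound on one class (adaptation of `Forcing.UN.class_fin`, UN/Cls.lean)

`ε n = conj (b n) / ‖b n‖` for `n ∈ A`, `ε n = 1` for the other `n`; `U = A ∪ W`. For
`m ∈ s`, `m ∉ R`: `rI_main` with `U`: `‖rI μ ε U m - (if m ∈ A then ε m / 2 else 0)‖ ≤ 5 κ`
(`m ∉ W` by `hWs`). For `m ∈ R`: `m ∉ A` and `‖rI μ ε U m‖ ≤ ∫ ‖rp ε U‖ dμ = ‖rI μ ε U 0‖ ≤ 1 + 2 κ ≤ 2`
(`int_rp_norm`, `rI_zero`). So `∫ f rp dμ = ∑ m ∈ s, b m * rI m` differs from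
`(1/2) ∑ m ∈ A, ‖b m‖` by at most `5 κ ∑ s + 2 ∑ R`, and it is at most `B` in modulus.
-/

namespace Forcing.RJ

open Complex Metric Set MeasureTheory Filter Topology Forcing.RZ Forcing.UN

theorem class_fin {μ : Measure ℂ} [IsProbabilityMeasure μ] (hμ : ∀ᵐ z ∂μ, ‖z‖ = 1)
    {Q C c κ : ℝ} {N : ℕ} (hp : Par Q 1 C c κ N) (hd : Dec μ C 1) (hκ : κ ≤ 1 / 2)
    {s A W R : Finset ℕ} (b : ℕ → ℂ) (hs : ∀ m ∈ s, N ≤ m) (hAs : A ⊆ s) (hRs : R ⊆ s)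
    (hAR : Disjoint A R) (hW : ∀ m ∈ W, N ≤ m) (hWs : ∀ m ∈ s, m ∉ R → m ∉ W)
    (hA : Lc Q (A ∪ W))
    (hsep : ∀ m ∈ s, m ∉ R → ∀ n ∈ A ∪ W, n ≠ m → 2 * c * n ≤ |(m : ℝ) - n|) {B : ℝ}
    (hB : ∀ ε : ℕ → ℂ, (∀ n, ‖ε n‖ ≤ 1) → (∀ n, n ∉ A → ε n = 1) →
      ∫ z, ‖∑ n ∈ s, b n * z ^ n‖ * ‖rp ε (A ∪ W) z‖ ∂μ ≤ B) :
    1 / 2 * ∑ n ∈ A, ‖b n‖ ≤ B + 5 * κ * ∑ n ∈ s, ‖b n‖ + 2 * ∑ n ∈ R, ‖b n‖ := by
  have hκ0 := hp.κ0
  set U := A ∪ W with hU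
  set ε : ℕ → ℂ := fun n => if n ∈ A then (starRingEnd ℂ) (b n) / ‖b n‖ else 1 with hεd
  have hε : ∀ n, ‖ε n‖ ≤ 1 := by
    intro n
    rw [hεd]
    by_cases hn : n ∈ A
    · simp only [if_pos hn, norm_div, RCLike.norm_conj, Complex.norm_real, norm_norm]
      exact div_self_le_one _
    · simp only [if_neg hn, norm_one, le_refl]
  have hbε : ∀ n ∈ A, b n * (ε n / 2) = ((‖b n‖ / 2 : ℝ) : ℂ) := by
    intro n hnA
    by_cases hn : b n = 0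
    · simp [hn]
    have h0 : (‖b n‖ : ℂ) ≠ 0 := by exact_mod_cast (norm_ne_zero_iff.mpr hn)
    have h1 : b n * (starRingEnd ℂ) (b n) = (‖b n‖ : ℂ) ^ 2 := by
      rw [Complex.mul_conj, Complex.normSq_eq_norm_sq]; push_cast; rfl
    rw [hεd]
    push_cast
    have h2 : b n * ((starRingEnd ℂ) (b n) / (‖b n‖ : ℂ) / 2) =
      (b n * (starRingEnd ℂ) (b n)) / (‖b n‖ : ℂ) / 2 := by ring
    show b n * ((if n ∈ A then (starRingEnd ℂ) (b n) / (‖b n‖ : ℂ) else 1) / 2) = _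
    rw [if_pos hnA, h2, h1]
    field_simp
  have hNU : ∀ m ∈ U, N ≤ m := by
    intro m hm
    rcases Finset.mem_union.1 hm with h | h
    · exact hs m (hAs h)
    · exact hW m h
  have h1 : ∫ z, (∑ n ∈ s, b n * z ^ n) * rp ε U z ∂μ = ∑ n ∈ s, b n * rI μ ε U n := by
    unfold rI
    simp_rw [Finset.sum_mul]
    rw [integral_finsetSum]
    · refine Finset.sum_congr rfl fun n _ => ?_
      rw [← integral_const_mul]
      congr 1
      ext z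
      rw [zpow_natCast]
      ring
    · intro n _
      have := (int_rp hμ hε U n).const_mul (b n)
      refine this.congr (Eventually.of_forall fun z => ?_)
      simp only [zpow_natCast]
      ring
  have h2 : ∑ n ∈ s, b n * (if n ∈ A then ε n / 2 else 0) =
      ((1 / 2 * ∑ n ∈ A, ‖b n‖ : ℝ) : ℂ) := by
    rw [← Finset.sum_subset hAs (fun n _ hn => by rw [if_neg hn, mul_zero]), Finset.mul_sum,
      Complex.ofReal_sum]
    refine Finset.sum_congr rfl fun n hn => ?_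
    rw [if_pos hn, hbε n hn]
    congr 1
    ring
  have hzero : ‖rI μ ε U 0‖ ≤ 2 := by
    have h3 := rI_zero hμ hd hp hε U hA hNU
    have h4 : (0 : ℝ) ≤ 2 / 2 ^ U.card := by positivity
    have h5 : κ * (2 - 2 / 2 ^ U.card) ≤ 1 := by nlinarith
    calc ‖rI μ ε U 0‖ = ‖(rI μ ε U 0 - 1) + 1‖ := by congr 1; ring
      _ ≤ ‖rI μ ε U 0 - 1‖ + ‖(1 : ℂ)‖ := norm_add_le _ _
      _ ≤ 2 := by rw [norm_one]; linarith
  have hfar : ∀ m : ℕ, ‖rI μ ε U m‖ ≤ 2 := by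
    intro m
    have h3 : ‖rI μ ε U m‖ ≤ ∫ z, ‖rp ε U z‖ ∂μ := by
      unfold rI
      refine (norm_integral_le_integral_norm _).trans (le_of_eq ?_)
      refine integral_congr_ae ?_
      filter_upwards [hμ] with z hz
      rw [norm_mul, norm_zpow, hz, one_zpow, one_mul]
    rw [int_rp_norm hμ hε] at h3
    exact h3.trans hzero
  have h3 : ‖∑ n ∈ s, b n * rI μ ε U n - ∑ n ∈ s, b n * (if n ∈ A then ε n / 2 else 0)‖ ≤
      5 * κ * ∑ n ∈ s, ‖b n‖ + 2 * ∑ n ∈ R, ‖b n‖ := by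
    have hR2 : 2 * ∑ n ∈ R, ‖b n‖ = ∑ n ∈ s, if n ∈ R then 2 * ‖b n‖ else 0 := by
      rw [← Finset.sum_subset hRs (fun n _ hn => by rw [if_neg hn]), Finset.mul_sum]
      exact Finset.sum_congr rfl fun n hn => by rw [if_pos hn]
    rw [← Finset.sum_sub_distrib, Finset.mul_sum, hR2, ← Finset.sum_add_distrib]
    refine (norm_sum_le _ _).trans (Finset.sum_le_sum fun n hn => ?_)
    rw [← mul_sub, norm_mul]
    have hb0 := norm_nonneg (b n)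
    by_cases hnR : n ∈ R
    · have hnA : n ∉ A := fun h => (Finset.disjoint_left.1 hAR) h hnR
      rw [if_neg hnA, sub_zero, if_pos hnR]
      have h4 := hfar n
      nlinarith [mul_nonneg hκ0 hb0, mul_le_mul_of_nonneg_left h4 hb0]
    · rw [if_neg hnR, add_zero, mul_comm]
      refine mul_le_mul_of_nonneg_right ?_ hb0
      have h4 := rI_main hμ hd hp hε (hs n hn) U hA hNU (fun k hk hne => hsep n hn hnR k hk hne)
      have hiff : (n ∈ U) ↔ n ∈ A := by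
        rw [hU, Finset.mem_union]
        exact ⟨fun h => h.resolve_right (hWs n hn hnR), Or.inl⟩
      have h5 : (if n ∈ U then ε n / 2 else 0) = (if n ∈ A then ε n / 2 else (0 : ℂ)) := by
        by_cases h : n ∈ A
        · rw [if_pos h, if_pos (hiff.2 h)]
        · rw [if_neg h, if_neg (fun h' => h (hiff.1 h'))]
      rw [h5] at h4
      refine h4.trans ?_
      have h6 : (0 : ℝ) ≤ 2 / 2 ^ U.card := by positivity
      nlinarith
  have h4 : ‖∫ z, (∑ n ∈ s, b n * z ^ n) * rp ε U z ∂μ‖ ≤ B := by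
    refine (norm_integral_le_integral_norm _).trans (le_trans (le_of_eq ?_)
      (hB ε hε (fun n hn => if_neg hn)))
    congr 1
    ext z
    rw [norm_mul]
  have h5 : (0 : ℝ) ≤ 1 / 2 * ∑ n ∈ A, ‖b n‖ :=
    mul_nonneg (by norm_num) (Finset.sum_nonneg fun _ _ => norm_nonneg _)
  have h6 : 1 / 2 * ∑ n ∈ A, ‖b n‖ = ‖∑ n ∈ s, b n * (if n ∈ A then ε n / 2 else 0)‖ := by
    rw [h2, Complex.norm_real, Real.norm_of_nonneg h5]
  rw [h6]
  rw [h1] at h4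
  set X := ∑ n ∈ s, b n * rI μ ε U n
  set Y := ∑ n ∈ s, b n * (if n ∈ A then ε n / 2 else 0)
  calc ‖Y‖ = ‖X - (X - Y)‖ := by congr 1; ring
    _ ≤ ‖X‖ + ‖X - Y‖ := norm_sub_le _ _
    _ ≤ B + (5 * κ * ∑ n ∈ s, ‖b n‖ + 2 * ∑ n ∈ R, ‖b n‖) := add_le_add h4 h3
    _ = _ := by ring

end Forcing.RJ
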