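import Pool.Agent.Lib.MP_c80ac4_an.UN.Cutoff

/-! # A boundary set which carries no Rajchman measure: definitions -/

namespace Forcing.RJ

open Complex Metric Set MeasureTheory Filter Topology Forcing.RZ Forcing.UN

/-- the frequency number `k` -/
def tau (k : ℕ) : ℕ := 16 ^ ((k + 1) ^ 2)

/-- the group of the index `k` -/
def gr (k : ℕ) : ℕ := (Nat.unpair k).1

/-- the index of the frequency `l` of the polynomial `j` of the group `i` -/
def idx (i j l : ℕ) : ℕ := Nat.pair i (Nat.pair j l)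

/-- the test polynomials -/
noncomputable def P (i j : ℕ) (z : ℂ) : ℂ :=
  (1 / ((2 ^ j : ℕ) : ℂ)) * ∑ l ∈ Finset.range (2 ^ j), z ^ tau (idx i j l)

/-- the frequencies of the polynomial `j` of the group `i` -/
def fr (i j : ℕ) : Finset ℕ := (Finset.range (2 ^ j)).image fun l => tau (idx i j l)

/-- the frequencies of the polynomials `a ≤ j < b` of the group `i` -/
def V (i a b : ℕ) : Finset ℕ := (Finset.Ico a b).biUnion (fr i)

/-- `n` is near the frequency number `k` -/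
def Near (k n : ℕ) : Prop := tau k ≤ 16 ^ k * n ∧ n ≤ 16 ^ k * tau k

/-- all elements of `W` are frequencies of the group `i` with index at least `K` -/
def Fr (i K : ℕ) (W : Finset ℕ) : Prop := ∀ n ∈ W, ∃ k, gr k = i ∧ K ≤ k ∧ n = tau k

/-- no element of `A` is near a frequency of the group `i` -/
def Away (i : ℕ) (A : Finset ℕ) : Prop := ∀ n ∈ A, ∀ k, gr k = i → ¬ Near k n

/-- `Q`-lacunary -/
def Lc (Q : ℝ) (A : Finset ℕ) : Prop := ∀ m ∈ A, ∀ n ∈ A, m < n → Q * m ≤ n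

open Classical in
/-- the elements of `s` which are near the group `i` -/
noncomputable def nr (i : ℕ) (s : Finset ℕ) : Finset ℕ :=
  s.filter fun n => ∃ k, gr k = i ∧ Near k n

theorem mem_nr {i : ℕ} {s : Finset ℕ} {n : ℕ} :
    n ∈ nr i s ↔ n ∈ s ∧ ∃ k, gr k = i ∧ Near k n := by
  unfold nr
  simp

/-- the part number `i` of the set, with start `a` -/
def Eg (i a : ℕ) : Set ℂ := {z | ‖z‖ = 1 ∧ (1 / 2 : ℝ) ^ (i + 1) ≤ ‖z - 1‖ ∧
  ‖z - 1‖ ≤ (1 / 2 : ℝ) ^ i ∧ ∀ j, a ≤ j → ‖P i j z - 1 / 2‖ ≤ 1 / 4}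

/-- the set -/
def ES (a : ℕ → ℕ) : Set ℂ := {1} ∪ ⋃ i, Eg i (a i)

/-- the cut-off functions -/
noncomputable def gc (i a b : ℕ) (z : ℂ) : ℝ :=
  ∏ j ∈ Finset.Ico a b, max 0 (1 - 16 * ‖P i j z - 1 / 2‖ ^ 2)

/-- the bump -/
noncomputable def h (i : ℕ) (z : ℂ) : ℝ :=
  max 0 (1 - 2 ^ (i + 3) * |‖z - 1‖ - 3 / 4 * (1 / 2) ^ i|)

/-- the Riesz product with all parameters `1`, as a real function -/
noncomputable def rv (W : Finset ℕ) (z : ℂ) : ℝ := ∏ n ∈ W, |1 + (z ^ n).re|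

/-- the base density -/
noncomputable def ph (i a J : ℕ) (W : Finset ℕ) (z : ℂ) : ℝ := h i z * gc i a J z * rv W z

/-- `a` is an admissible start of the group `i` -/
def Start (i a : ℕ) : Prop := 1 ≤ a ∧ ∀ (J T : ℕ) (W : Finset ℕ), V i a J ⊆ W → W ⊆ V i a T →
  1 / 4 * ∫ z, h i z ∂haar ≤ ∫ z, ph i a J W z ∂haar

/-- the frequencies of the group `i` below the frequency number `k + 1` -/
def lo (i a k : ℕ) : Finset ℕ := (V i a (k + 1)).filter (· < tau (k + 1))

theorem continuous_P (i j : ℕ) : Continuous (P i j) := by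
  unfold P
  fun_prop

end Forcing.RJ
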