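import Pool.Agent.Lib.MP_c80ac4_an.RJ.Ari

/-!
# Row PG: the pigeonhole principle

The sets `nr i s`, `i < G`, are disjoint subsets of `s` (`near_unique`, `gr k = i`), so the sum over
`i < G` of their sums is at most `∑ s` (`Finset.sum_biUnion`), and one of them is at most `1 / G` of it.
-/

namespace Forcing.RJ

theorem exists_group {G : ℕ} (hG : 0 < G) (s : Finset ℕ) (b : ℕ → ℂ) :
    ∃ i < G, ∑ n ∈ nr i s, ‖b n‖ ≤ 1 / (G : ℝ) * ∑ n ∈ s, ‖b n‖ := by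
  have hG' : (G : ℝ) ≠ 0 := by exact_mod_cast hG.ne'
  have hdis : Set.PairwiseDisjoint (↑(Finset.range G) : Set ℕ) (fun i => nr i s) := by
    intro i _ j _ hij
    refine Finset.disjoint_left.2 fun n hn hn' => hij ?_
    obtain ⟨-, k, hk, hk'⟩ := mem_nr.1 hn
    obtain ⟨-, l, hl, hl'⟩ := mem_nr.1 hn'
    rw [← hk, ← hl, near_unique hk' hl']
  have h1 : ∑ i ∈ Finset.range G, ∑ n ∈ nr i s, ‖b n‖ ≤ ∑ i ∈ Finset.range G, 1 / (G : ℝ) * ∑ n ∈ s, ‖b n‖ := by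
    rw [← Finset.sum_biUnion hdis, Finset.sum_const, Finset.card_range, nsmul_eq_mul, ← mul_assoc, mul_one_div,
      div_self hG', one_mul]
    refine Finset.sum_le_sum_of_subset_of_nonneg (fun n hn => ?_) fun _ _ _ => norm_nonneg _
    obtain ⟨i, -, hi⟩ := Finset.mem_biUnion.1 hn
    exact (mem_nr.1 hi).1
  obtain ⟨i, hi, h2⟩ := Finset.exists_le_of_sum_le ⟨0, Finset.mem_range.2 hG⟩ h1
  exact ⟨i, Finset.mem_range.1 hi, h2⟩

end Forcing.RJ
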