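import Pool.Agent.Lib.MP_c80ac4_an.RJ.CM
import Pool.Agent.Lib.MP_c80ac4_an.RJ.Pg

/-!
# Row FIN: the Sidon inequalities (adaptation of `Forcing.UN.sidonOn_union`, UN/Main.lean)

PROOF. `q > 1`; `c = min ((1 - 1/q)/2) (1/4)`, `Q = 5 + 1/c`, `Q ≤ q^L`, `κ = 1/(16 (L+1))`,
`G = 32 (L+1)`. `N` = maximum of the `N` of `class_main` for `i < G`, `K = ∑ i < G, 4 / ∫ h i`
(each term is `≥ 0`, `int_h_pos`). Given `s`, `b`, `M`: `exists_group` gives `i < G` with
`∑ nr i s ≤ S / G`. For the classes `A_r = {n ∈ s \ nr i s | cls q (L+1) n = r}`, `r < L+1`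
(`cls_gap`: `Q`-lacunary; `Away` by `mem_nr`): `(1/2) ∑ A_r ≤ K M + κ S + 2 S / G`. Sum over `r`:
`(1/2) (S - S/G) ≤ (L+1) K M + S/16 + S/16`, and `S/G ≤ S/32`: `S ≤ 3 (L+1) K M`.
-/

namespace Forcing.RJ

open Complex Metric Set MeasureTheory Filter Topology Forcing.RZ Forcing.UN

theorem sidon_ES {a : ℕ → ℕ} (ha : ∀ i, Start i (a i)) : SidonOn (ES a) := by
  classical
  intro q hq
  have hq0 : 0 < q := by linarith
  have hqi : 1 / q < 1 := by rw [div_lt_one hq0]; exact hq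
  set c : ℝ := min ((1 - 1 / q) / 2) (1 / 4) with hc
  have hc0 : 0 < c := lt_min (by linarith) (by norm_num)
  have hc1 : 2 * c ≤ 1 / 2 := by
    have := min_le_right ((1 - 1 / q) / 2) (1 / 4 : ℝ)
    linarith
  have hcq : 2 * c ≤ 1 - 1 / q := by
    have := min_le_left ((1 - 1 / q) / 2) (1 / 4 : ℝ)
    linarith
  set Q : ℝ := 5 + 1 / c with hQ
  have hic : 0 < 1 / c := by positivity
  have hQ5 : 5 ≤ Q := by rw [hQ]; linarith
  have hQc : 1 / (Q - 1) ≤ c := by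
    rw [div_le_iff₀ (by linarith)]
    calc (1 : ℝ) = c * (1 / c) := by field_simp
      _ ≤ c * (Q - 1) := by
          gcongr
          rw [hQ]
          linarith
  obtain ⟨L, hL⟩ := pow_unbounded_of_one_lt Q hq
  have hL0 : (0 : ℝ) ≤ L := Nat.cast_nonneg L
  set κ : ℝ := 1 / (16 * (L + 1)) with hκd
  have hκ0 : 0 < κ := by positivity
  have hcm := fun i : ℕ => class_main (ha i) hq hQ5 hc0 hc1 hcq hQc hκ0
  choose Nf _ hNf using hcm
  set G : ℕ := 32 * (L + 1) with hG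
  have hG0 : 0 < G := by omega
  set K : ℝ := ∑ i ∈ Finset.range G, 4 / (∫ z, h i z ∂haar) with hK
  have hKi : ∀ i < G, 4 / (∫ z, h i z ∂haar) ≤ K := by
    intro i hi
    refine Finset.single_le_sum (f := fun i => 4 / (∫ z, h i z ∂haar)) (fun j _ => ?_)
      (Finset.mem_range.2 hi)
    exact div_nonneg (by norm_num) (int_h_pos j).le
  refine ⟨(Finset.range G).sup Nf, 3 * (L + 1) * K, fun s b M hs hM0 hM => ?_⟩
  set S := ∑ n ∈ s, ‖b n‖ with hS
  have hS0 : 0 ≤ S := Finset.sum_nonneg fun _ _ => norm_nonneg _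
  obtain ⟨i, hiG, hi⟩ := exists_group hG0 s b
  rw [← hS] at hi
  have hGr : (1 : ℝ) / (G : ℝ) = 1 / (32 * (L + 1)) := by
    rw [hG]
    push_cast
    ring
  rw [hGr] at hi
  have hnr : nr i s ⊆ s := fun n hn => (mem_nr.1 hn).1
  have hclass : ∀ r ∈ Finset.range (L + 1),
      1 / 2 * ∑ n ∈ s \ nr i s with cls q (L + 1) n = r, ‖b n‖ ≤
      K * M + κ * S + 2 * (1 / (32 * (L + 1)) * S) := by
    intro r _
    have hsub : (s \ nr i s).filter (fun n => cls q (L + 1) n = r) ⊆ s :=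
      (Finset.filter_subset _ _).trans Finset.sdiff_subset
    have h1 := hNf i s b M (hs.mono (Finset.le_sup (f := Nf) (Finset.mem_range.2 hiG)) le_rfl) hM0
      (fun z hz => hM z (Or.inr (Set.mem_iUnion.2 ⟨i, hz⟩)))
      ((s \ nr i s).filter (fun n => cls q (L + 1) n = r)) hsub
      (fun m hm n hn hmn => cls_gap hq hL.le (hs.1 m (hsub hm)).1
        (hs.2 m (hsub hm) n (hsub hn) hmn)
        (((Finset.mem_filter.1 hm).2).trans ((Finset.mem_filter.1 hn).2).symm))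
      (fun n hn k hk1 hk2 => (Finset.mem_sdiff.1 (Finset.mem_filter.1 hn).1).2
        (mem_nr.2 ⟨hsub hn, k, hk1, hk2⟩))
    have h2 := mul_le_mul_of_nonneg_right (hKi i hiG) hM0
    linarith
  have hsum : ∑ n ∈ s \ nr i s, ‖b n‖ =
      ∑ r ∈ Finset.range (L + 1), ∑ n ∈ s \ nr i s with cls q (L + 1) n = r, ‖b n‖ := by
    rw [Finset.sum_fiberwise_of_maps_to]
    intro n _
    rw [Finset.mem_range]
    exact Nat.mod_lt _ (Nat.succ_pos L)
  have hsplit : ∑ n ∈ s \ nr i s, ‖b n‖ + ∑ n ∈ nr i s, ‖b n‖ = S := Finset.sum_sdiff hnr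
  have hfin : 1 / 2 * ∑ n ∈ s \ nr i s, ‖b n‖ ≤
      (L + 1) * (K * M + κ * S + 2 * (1 / (32 * (L + 1)) * S)) := by
    rw [hsum, Finset.mul_sum]
    refine (Finset.sum_le_sum hclass).trans ?_
    rw [Finset.sum_const, Finset.card_range, nsmul_eq_mul]
    push_cast
    exact le_rfl
  have h5 : ((L : ℝ) + 1) * (K * M + κ * S + 2 * (1 / (32 * (L + 1)) * S)) =
      (L + 1) * K * M + S / 8 := by
    rw [hκd]
    field_simp
    ring
  rw [h5] at hfin
  have h6 : 1 / (32 * ((L : ℝ) + 1)) * S ≤ 1 / 32 * S := by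
    refine mul_le_mul_of_nonneg_right ?_ hS0
    exact one_div_le_one_div_of_le (by norm_num) (by linarith)
  have h7 : S ≤ 64 / 23 * ((L + 1) * K * M) := by linarith
  have hK0 : 0 ≤ K := by
    rw [hK]
    exact Finset.sum_nonneg fun j _ => div_nonneg (by norm_num) (int_h_pos j).le
  have h8 : 0 ≤ ((L : ℝ) + 1) * K * M := by positivity
  linarith

end Forcing.RJ
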