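import Pool.Agent.Lib.MP_c80ac4_an.RJ.Raj

/-!
# Row NOR: the set carries no Rajchman measure

PROOF. Suppose `∫ z^n dμ → 0`. If `F` is measurable and `‖P i j z‖ ≥ 1/4` for all `z ∈ F` and
`j ≥ a₀` then `μ F ≤ 16 ∫ ‖P i j‖² dμ` for all `j ≥ a₀` (Markov), so `μ F = 0` by `tendsto_sq`. This
applies to `F = Eg i (a i)` (`‖P - 1/2‖ ≤ 1/4`; `Eg` is closed) and to `F = {1}` (`P 0 j 1 = 1`).
So `μ (ES a) = 0`, but `μ (ES a) = 1`.
-/

namespace Forcing.RJ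

open Complex Metric Set MeasureTheory Filter Topology Forcing.RZ Forcing.UN

private theorem nor_le_one {i j : ℕ} {z : ℂ} (hz : ‖z‖ = 1) : ‖P i j z‖ ≤ 1 := by
  unfold P
  rw [norm_mul]
  have h1 : ‖∑ l ∈ Finset.range (2 ^ j), z ^ tau (idx i j l)‖ ≤ ((2 ^ j : ℕ) : ℝ) := by
    refine (norm_sum_le _ _).trans ?_
    have h2 : ∀ l ∈ Finset.range (2 ^ j), ‖z ^ tau (idx i j l)‖ ≤ 1 := by
      intro l _
      rw [norm_pow, hz, one_pow]
    refine (Finset.sum_le_card_nsmul _ _ _ h2).trans ?_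
    rw [Finset.card_range, nsmul_eq_mul, mul_one]
  have h3 : ‖(1 / ((2 ^ j : ℕ) : ℂ))‖ = 1 / ((2 ^ j : ℕ) : ℝ) := by
    rw [norm_div, norm_one, Complex.norm_natCast]
  have h4 : (0 : ℝ) < ((2 ^ j : ℕ) : ℝ) := by positivity
  rw [h3]
  calc 1 / ((2 ^ j : ℕ) : ℝ) * ‖∑ l ∈ Finset.range (2 ^ j), z ^ tau (idx i j l)‖
      ≤ 1 / ((2 ^ j : ℕ) : ℝ) * ((2 ^ j : ℕ) : ℝ) := mul_le_mul_of_nonneg_left h1 (by positivity)
    _ = 1 := by field_simp

private theorem nor_one (i j : ℕ) : P i j 1 = 1 := by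
  unfold P
  have h4 : ((2 ^ j : ℕ) : ℂ) ≠ 0 := by
    have : (2 ^ j : ℕ) ≠ 0 := by positivity
    exact_mod_cast this
  simp only [one_pow, Finset.sum_const, Finset.card_range, nsmul_eq_mul, mul_one]
  field_simp

private theorem nor_null {μ : Measure ℂ} [IsProbabilityMeasure μ] (hc : ∀ᵐ z ∂μ, ‖z‖ = 1)
    (hr : Tendsto (fun n : ℕ => ∫ z, z ^ n ∂μ) atTop (𝓝 0)) {F : Set ℂ} (i a : ℕ)
    (hF : ∀ z ∈ F, ∀ j, a ≤ j → 1 / 4 ≤ ‖P i j z‖) : μ F = 0 := by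
  have h1 : ∀ j, a ≤ j → μ.real F ≤ 16 * ∫ z, ‖P i j z‖ ^ 2 ∂μ := by
    intro j hj
    have hint : Integrable (fun z => ‖P i j z‖ ^ 2) μ := by
      refine Integrable.of_bound ((continuous_P i j).norm.pow 2).aestronglyMeasurable 1 ?_
      filter_upwards [hc] with z hz
      rw [Real.norm_eq_abs, abs_of_nonneg (by positivity)]
      exact pow_le_one₀ (norm_nonneg _) (nor_le_one hz)
    have h2 := mul_meas_ge_le_integral_of_nonneg (μ := μ)
      (Filter.Eventually.of_forall fun z => by positivity : 0 ≤ᵐ[μ] fun z => ‖P i j z‖ ^ 2) hint (1 / 16)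
    have h3 : μ.real F ≤ μ.real {z | 1 / 16 ≤ ‖P i j z‖ ^ 2} := by
      refine measureReal_mono ?_
      intro z hz
      have h4 := hF z hz j hj
      show 1 / 16 ≤ ‖P i j z‖ ^ 2
      nlinarith
    linarith
  have h2 := (tendsto_sq hc hr i).const_mul 16
  rw [mul_zero] at h2
  have h3 : μ.real F ≤ 0 := ge_of_tendsto h2 (Filter.eventually_atTop.mpr ⟨a, fun j hj => h1 j hj⟩)
  have h4 : μ.real F = 0 := le_antisymm h3 measureReal_nonneg
  rwa [measureReal_eq_zero_iff] at h4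

theorem no_rajchman (a : ℕ → ℕ) {μ : Measure ℂ} [IsProbabilityMeasure μ]
    (hμ : ∀ᵐ z ∂μ, z ∈ ES a) : ¬ Tendsto (fun n : ℕ => ∫ z, z ^ n ∂μ) atTop (𝓝 0) := by
  intro hr
  have hc : ∀ᵐ z ∂μ, ‖z‖ = 1 := by
    filter_upwards [hμ] with z hz
    rcases hz with hz | hz
    · rw [mem_singleton_iff] at hz
      rw [hz, norm_one]
    · obtain ⟨i, hi⟩ := mem_iUnion.mp hz
      exact hi.1
  have h1 : μ {1} = 0 := by
    refine nor_null hc hr 0 0 ?_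
    intro z hz j _
    rw [mem_singleton_iff] at hz
    rw [hz, nor_one, norm_one]
    norm_num
  have h2 : ∀ i, μ (Eg i (a i)) = 0 := by
    intro i
    refine nor_null hc hr i (a i) ?_
    intro z hz j hj
    have h3 := hz.2.2.2 j hj
    have h4 : ‖(1 / 2 : ℂ)‖ ≤ ‖P i j z‖ + ‖P i j z - 1 / 2‖ := by
      have h5 : (1 / 2 : ℂ) = P i j z - (P i j z - 1 / 2) := by ring
      calc ‖(1 / 2 : ℂ)‖ = ‖P i j z - (P i j z - 1 / 2)‖ := by rw [← h5]
        _ ≤ ‖P i j z‖ + ‖P i j z - 1 / 2‖ := norm_sub_le _ _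
    have h6 : ‖(1 / 2 : ℂ)‖ = 1 / 2 := by norm_num
    rw [h6] at h4
    linarith
  have h3 : μ (ES a) = 0 := measure_union_null h1 (measure_iUnion_null h2)
  have h4 : ∀ᵐ z ∂μ, z ∉ ES a := measure_eq_zero_iff_ae_notMem.mp h3
  obtain ⟨z, hz1, hz2⟩ := (hμ.and h4).exists
  exact hz2 hz1

end Forcing.RJ
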