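import Pool.Agent.Lib.MP_c80ac4_an.RJ.Fin
import Pool.Agent.Lib.MP_c80ac4_an.RJ.Base
import Pool.Agent.Lib.MP_c80ac4_an.RJ.Clo
import Pool.Agent.Lib.MP_c80ac4_an.RJ.NoR

/-! # A boundary set which carries no Rajchman measure -/

namespace Forcing.RJ

open Complex Metric Set MeasureTheory Filter Topology

theorem exists_no_rajchman : ∃ E : Set ℂ, IsClosed E ∧ E ⊆ sphere 0 1 ∧ SidonOn E ∧
    ∀ μ : Measure ℂ, IsProbabilityMeasure μ → (∀ᵐ z ∂μ, z ∈ E) →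
      ¬ Tendsto (fun n : ℕ => ∫ z, z ^ n ∂μ) atTop (𝓝 0) := by
  choose a ha using exists_start
  exact ⟨ES a, isClosed_ES a, ES_subset a, sidon_ES ha, fun μ hμ h => no_rajchman a h⟩

end Forcing.RJ
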