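import Pool.Agent.Lib.MP_c80ac4_an.RJ.Defs

/-!
# Row PR: Fourier coefficients of Riesz products for length

`rI_one`: `rI_main` with `haar_norm`, `dec_haar 1`, `Par 5 1 0 (1/4) 0 1` (`exists_par`): for `n ≠ t`
in `A` one has `n / 2 ≤ |t - n|` by the lacunarity.
`rI_pair`: induction on the maximum `n` of `A = insert n B`, `rI_insert`, and `rI_far` with `C = 0`
(it gives `rI haar ε B u = 0` if `∑ B < |u|`), `∑ B ≤ n / 4` (`gap_sum_le`, `Q = 5`).
If `n = t`: `t - t' ≥ 4 t / 5`, `2 t - t' ≥ t` are out, and the term at `- t'` is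
`ε t / 2 * conj (rI B t')` (`rI_neg`, `rI_one`). If `n ≠ t`: `t, t' ∈ B`, and
`n ± (t - t') ≥ 4 n / 5` are out.
-/

namespace Forcing.RJ

open Complex Metric Set MeasureTheory Filter Topology Forcing.RZ Forcing.UN

private theorem pr_far {ε : ℕ → ℂ} (hε : ∀ n, ‖ε n‖ ≤ 1) {B : Finset ℕ} (hB : Lc 5 B) {n : ℕ}
    (hn : 1 ≤ n) (hBn : ∀ m ∈ B, (5 : ℝ) * m ≤ n) {j : ℤ} (hj : (n : ℝ) / 2 ≤ |(j : ℝ)|) :
    rI haar ε B j = 0 := by
  have hn0 : (0 : ℝ) < n := by exact_mod_cast hn
  have hs : ∑ m ∈ B, (m : ℝ) ≤ n / (5 - 1) :=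
    gap_sum_le (by norm_num) B hB n hn0.le hBn
  have h1 := rI_far haar_norm one_pos le_rfl (dec_haar 1) hε (D := (n : ℝ) / 4) (by positivity) B j
    (by linarith)
  rw [zero_mul, mul_zero] at h1
  exact norm_le_zero_iff.mp h1

theorem rI_one {ε : ℕ → ℂ} (hε : ∀ n, ‖ε n‖ ≤ 1) {A : Finset ℕ} (hA : Lc 5 A)
    (hN : ∀ m ∈ A, 1 ≤ m) {t : ℕ} (ht : t ∈ A) : rI haar ε A t = ε t / 2 := by
  have hpar : Par 5 1 0 (1 / 4) 0 1 := exists_par (by norm_num) (by norm_num) (by norm_num)
    (by norm_num)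
  have h1 := rI_main haar_norm (dec_haar 1) hpar hε (hN t ht) A hA hN (by
    intro n hn hne
    have hn0 : (0 : ℝ) ≤ n := Nat.cast_nonneg n
    have ht0 : (0 : ℝ) ≤ t := Nat.cast_nonneg t
    rcases lt_or_gt_of_ne hne with h | h
    · have h2 := hA n hn t ht h
      have h3 := le_abs_self ((t : ℝ) - n)
      linarith
    · have h2 := hA t ht n hn h
      have h3 := neg_abs_le ((t : ℝ) - n)
      linarith)
  rw [if_pos ht, zero_mul] at h1
  exact sub_eq_zero.mp (norm_le_zero_iff.mp h1)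

private theorem pr_neg {ε : ℕ → ℂ} (hε : ∀ n, ‖ε n‖ ≤ 1) (A : Finset ℕ) (m : ℤ) :
    rI haar ε A (-m) = (starRingEnd ℂ) (rI haar ε A m) := by
  unfold rI
  rw [← integral_conj]
  refine integral_congr_ae ?_
  filter_upwards [haar_norm] with z hz
  obtain ⟨t, -, ht⟩ := rp_nonneg hε A hz
  have hz1 : (starRingEnd ℂ) z = z⁻¹ := by
    rw [Complex.inv_def, Complex.normSq_eq_norm_sq, hz]; simp
  rw [map_mul, map_zpow₀, hz1, ht, Complex.conj_ofReal, zpow_neg, inv_zpow]

theorem rI_pair {ε : ℕ → ℂ} (hε : ∀ n, ‖ε n‖ ≤ 1) {A : Finset ℕ} (hA : Lc 5 A)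
    (hN : ∀ m ∈ A, 1 ≤ m) {t t' : ℕ} (ht : t ∈ A) (ht' : t' ∈ A) (hlt : t' < t) :
    rI haar ε A ((t : ℤ) - t') = ε t / 2 * ((starRingEnd ℂ) (ε t') / 2) := by
  induction A using Finset.induction_on_max with
  | empty => exact absurd ht (Finset.notMem_empty t)
  | insert n B hb ih =>
    have hnB : n ∉ B := fun h => lt_irrefl _ (hb n h)
    have hB : Lc 5 B := fun m hm k hk =>
      hA m (Finset.mem_insert_of_mem hm) k (Finset.mem_insert_of_mem hk)
    have hNB : ∀ m ∈ B, 1 ≤ m := fun m hm => hN m (Finset.mem_insert_of_mem hm)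
    have hBn : ∀ m ∈ B, (5 : ℝ) * m ≤ n := fun m hm =>
      hA m (Finset.mem_insert_of_mem hm) n (Finset.mem_insert_self _ _) (hb m hm)
    have hn : 1 ≤ n := hN n (Finset.mem_insert_self _ _)
    have hn0 : (0 : ℝ) < n := by exact_mod_cast hn
    have ht0 : (0 : ℝ) ≤ t' := Nat.cast_nonneg t'
    have hlt' : (t' : ℝ) < t := by exact_mod_cast hlt
    rw [rI_insert haar_norm hε hnB]
    by_cases hnt : n = t
    · subst hnt
      have ht'B : t' ∈ B := by
        rcases Finset.mem_insert.mp ht' with h | h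
        · omega
        · exact h
      have h5 := hBn t' ht'B
      have h1 : rI haar ε B ((n : ℤ) - t') = 0 := by
        refine pr_far hε hB hn hBn ?_
        push_cast
        have := le_abs_self ((n : ℝ) - t')
        linarith
      have h2 : rI haar ε B ((n : ℤ) - t' + n) = 0 := by
        refine pr_far hε hB hn hBn ?_
        push_cast
        have := le_abs_self ((n : ℝ) - t' + n)
        linarith
      have h3 : (n : ℤ) - t' - n = -(t' : ℤ) := by ring
      have h6 : (starRingEnd ℂ) (2 : ℂ) = 2 := Complex.conj_ofNat 2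
      rw [h1, h2, h3, pr_neg hε, rI_one hε hB hNB ht'B, map_div₀, h6]
      ring
    · have htB : t ∈ B := by
        rcases Finset.mem_insert.mp ht with h | h
        · exact absurd h.symm hnt
        · exact h
      have ht'B : t' ∈ B := by
        rcases Finset.mem_insert.mp ht' with h | h
        · have := hb t htB
          omega
        · exact h
      have h5 := hBn t htB
      have h1 : rI haar ε B ((t : ℤ) - t' - n) = 0 := by
        refine pr_far hε hB hn hBn ?_
        push_cast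
        have := neg_abs_le ((t : ℝ) - t' - n)
        linarith
      have h2 : rI haar ε B ((t : ℤ) - t' + n) = 0 := by
        refine pr_far hε hB hn hBn ?_
        push_cast
        have := le_abs_self ((t : ℝ) - t' + n)
        linarith
      rw [ih hB hNB htB ht'B, h1, h2]
      ring

end Forcing.RJ
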