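import Pool.Agent.Lib.MP_c80ac4_an.RJ.Ari

/-!
# Row RAJ: the test polynomials tend to zero in the mean of every Rajchman measure

PROOF. Let `‖∫ z^n dμ‖ ≤ δ` for `n ≥ N`. For `j ≥ N` the indices `idx i j l` are distinct and
`≥ j ≥ N`, so for two of the frequencies, `t' < t`: `t - t' ≥ t' ≥ N` (`tau_step`: `t ≥ 16 t'`,
`le_tau`, `le_idx`). On the circle `‖∑ z^t‖² = ∑ t, ∑ t', z^(t - t')` (integer powers), so
`∫ ‖P i j‖² dμ ≤ (2^j + 4^j δ) / 4^j`. (For negative exponents take conjugates.)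
-/

namespace Forcing.RJ

open Complex Metric Set MeasureTheory Filter Topology Forcing.RZ Forcing.UN

private theorem rj_gap {k l : ℕ} (h : k < l) : tau k < tau l ∧ k ≤ tau l - tau k := by
  have h1 := tau_step h
  have h2 := tau_pos k
  have h3 := le_tau k
  have h4 : 2 * tau k ≤ 16 ^ (2 * k + 3) * tau k := by
    refine Nat.mul_le_mul_right _ ?_
    calc 2 ≤ 16 ^ 1 := by norm_num
      _ ≤ 16 ^ (2 * k + 3) := Nat.pow_le_pow_right (by norm_num) (by omega)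
  omega

private theorem rj_conj {z : ℂ} (hz : ‖z‖ = 1) (t : ℕ) :
    z ^ t * (starRingEnd ℂ) (z ^ t) = 1 := by
  rw [Complex.mul_conj, Complex.normSq_eq_norm_sq, norm_pow, hz]
  simp

private theorem rj_lt {μ : Measure ℂ} (hμ : ∀ᵐ z ∂μ, ‖z‖ = 1) {s t : ℕ} (h : s < t) :
    ∫ z, z ^ t * (starRingEnd ℂ) (z ^ s) ∂μ = ∫ z, z ^ (t - s) ∂μ := by
  refine integral_congr_ae ?_
  filter_upwards [hμ] with z hz
  have h1 : z ^ t = z ^ (t - s) * z ^ s := by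
    rw [← pow_add]
    congr 1
    omega
  rw [h1, mul_assoc, rj_conj hz, mul_one]

private theorem rj_gt {μ : Measure ℂ} (hμ : ∀ᵐ z ∂μ, ‖z‖ = 1) {s t : ℕ} (h : t < s) :
    ∫ z, z ^ t * (starRingEnd ℂ) (z ^ s) ∂μ = (starRingEnd ℂ) (∫ z, z ^ (s - t) ∂μ) := by
  rw [← integral_conj]
  refine integral_congr_ae ?_
  filter_upwards [hμ] with z hz
  have h1 : z ^ s = z ^ t * z ^ (s - t) := by
    rw [← pow_add]
    congr 1
    omega
  rw [h1, map_mul, ← mul_assoc, rj_conj hz, one_mul]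

private theorem rj_ms {μ : Measure ℂ} [IsProbabilityMeasure μ] (hμ : ∀ᵐ z ∂μ, ‖z‖ = 1) {δ : ℝ}
    (hδ : 0 ≤ δ) (s : Finset ℕ) (f : ℕ → ℕ)
    (h : ∀ l ∈ s, ∀ l' ∈ s, l ≠ l' →
      ‖∫ z, z ^ f l * (starRingEnd ℂ) (z ^ f l') ∂μ‖ ≤ δ) :
    ∫ z, ‖∑ l ∈ s, z ^ f l‖ ^ 2 ∂μ ≤ s.card + (s.card : ℝ) ^ 2 * δ := by
  have hint : ∀ a b : ℕ, Integrable (fun z : ℂ => z ^ a * (starRingEnd ℂ) (z ^ b)) μ := by
    intro a b
    have hc : Continuous (fun z : ℂ => z ^ a * (starRingEnd ℂ) (z ^ b)) :=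
      (continuous_pow a).mul (Complex.continuous_conj.comp (continuous_pow b))
    refine Integrable.of_bound hc.aestronglyMeasurable 1 ?_
    filter_upwards [hμ] with z hz
    rw [norm_mul, RCLike.norm_conj, norm_pow, norm_pow, hz]
    simp
  have h1 : ((∫ z, ‖∑ l ∈ s, z ^ f l‖ ^ 2 ∂μ : ℝ) : ℂ) =
      ∑ l ∈ s, ∑ l' ∈ s, ∫ z, z ^ f l * (starRingEnd ℂ) (z ^ f l') ∂μ := by
    rw [← integral_complex_ofReal]
    have h2 : (fun z : ℂ => ((‖∑ l ∈ s, z ^ f l‖ ^ 2 : ℝ) : ℂ)) =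
        fun z => ∑ l ∈ s, ∑ l' ∈ s, z ^ f l * (starRingEnd ℂ) (z ^ f l') := by
      funext z
      rw [← Finset.sum_mul_sum, ← map_sum, Complex.mul_conj, Complex.normSq_eq_norm_sq]
    rw [h2, integral_finset_sum _ fun l _ => integrable_finset_sum _ fun l' _ => hint _ _]
    refine Finset.sum_congr rfl fun l _ => ?_
    rw [integral_finset_sum _ fun l' _ => hint _ _]
  have h0 : 0 ≤ ∫ z, ‖∑ l ∈ s, z ^ f l‖ ^ 2 ∂μ := integral_nonneg fun z => by positivity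
  have h3 : ∀ l ∈ s, ∀ l' ∈ s, ‖∫ z, z ^ f l * (starRingEnd ℂ) (z ^ f l') ∂μ‖ ≤
      (if l = l' then 1 else 0) + δ := by
    intro l hl l' hl'
    by_cases e : l = l'
    · subst e
      rw [if_pos rfl]
      have h4 : ∫ z, z ^ f l * (starRingEnd ℂ) (z ^ f l) ∂μ = ∫ _z, (1 : ℂ) ∂μ := by
        refine integral_congr_ae ?_
        filter_upwards [hμ] with z hz
        exact rj_conj hz _
      rw [h4]
      simp [hδ]
    · rw [if_neg e, zero_add]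
      exact h l hl l' hl' e
  calc ∫ z, ‖∑ l ∈ s, z ^ f l‖ ^ 2 ∂μ
      = ‖((∫ z, ‖∑ l ∈ s, z ^ f l‖ ^ 2 ∂μ : ℝ) : ℂ)‖ := (Complex.norm_of_nonneg h0).symm
    _ = ‖∑ l ∈ s, ∑ l' ∈ s, ∫ z, z ^ f l * (starRingEnd ℂ) (z ^ f l') ∂μ‖ := by rw [h1]
    _ ≤ ∑ l ∈ s, ∑ l' ∈ s, ‖∫ z, z ^ f l * (starRingEnd ℂ) (z ^ f l') ∂μ‖ :=
        (norm_sum_le _ _).trans (Finset.sum_le_sum fun l _ => norm_sum_le _ _)
    _ ≤ ∑ l ∈ s, ∑ l' ∈ s, ((if l = l' then 1 else 0) + δ) :=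
        Finset.sum_le_sum fun l hl => Finset.sum_le_sum fun l' hl' => h3 l hl l' hl'
    _ = s.card + (s.card : ℝ) ^ 2 * δ := by
        have h5 : ∀ l ∈ s, ∑ l' ∈ s, ((if l = l' then (1 : ℝ) else 0) + δ) = 1 + s.card * δ := by
          intro l hl
          rw [Finset.sum_add_distrib, Finset.sum_ite_eq, if_pos hl, Finset.sum_const,
            nsmul_eq_mul]
        rw [Finset.sum_congr rfl h5, Finset.sum_const, nsmul_eq_mul]
        ring

theorem tendsto_sq {μ : Measure ℂ} [IsProbabilityMeasure μ] (hμ : ∀ᵐ z ∂μ, ‖z‖ = 1)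
    (hr : Tendsto (fun n : ℕ => ∫ z, z ^ n ∂μ) atTop (𝓝 0)) (i : ℕ) :
    Tendsto (fun j => ∫ z, ‖P i j z‖ ^ 2 ∂μ) atTop (𝓝 0) := by
  rw [Metric.tendsto_atTop] at hr ⊢
  intro e he
  obtain ⟨N, hN⟩ := hr (e / 4) (by positivity)
  obtain ⟨J, hJ⟩ := exists_pow_lt_of_lt_one (show (0 : ℝ) < e / 4 by positivity)
    (show (1 / 2 : ℝ) < 1 by norm_num)
  refine ⟨max N J, fun j hj => ?_⟩
  have hjN : N ≤ j := (le_max_left _ _).trans hj
  have hjJ : J ≤ j := (le_max_right _ _).trans hj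
  have hn0 : 0 ≤ ∫ z, ‖P i j z‖ ^ 2 ∂μ := integral_nonneg fun z => by positivity
  rw [Real.dist_eq, sub_zero, abs_of_nonneg hn0]
  have h1 : ∀ z, ‖P i j z‖ ^ 2 =
      (1 / 4 ^ j) * ‖∑ l ∈ Finset.range (2 ^ j), z ^ tau (idx i j l)‖ ^ 2 := by
    intro z
    unfold P
    rw [norm_mul, mul_pow]
    congr 1
    rw [norm_div, norm_one, Complex.norm_natCast, div_pow, one_pow]
    push_cast
    rw [← pow_mul, mul_comm j 2, pow_mul]
    norm_num
  simp_rw [h1]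
  rw [integral_const_mul]
  have hsm : ∀ n : ℕ, N ≤ n → ‖∫ z, z ^ n ∂μ‖ ≤ e / 4 := by
    intro n hn
    have h2 := hN n hn
    rw [dist_zero_right] at h2
    exact h2.le
  have h2 := rj_ms hμ (show (0 : ℝ) ≤ e / 4 by positivity) (Finset.range (2 ^ j))
    (fun l => tau (idx i j l)) (by
      intro l _ l' _ hne
      have hne' : idx i j l ≠ idx i j l' := fun h => hne (idx_inj h)
      have k1 := le_idx i j l
      have k2 := le_idx i j l'
      rcases lt_or_gt_of_ne hne' with h3 | h3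
      · obtain ⟨g1, g2⟩ := rj_gap h3
        rw [rj_gt hμ g1, RCLike.norm_conj]
        exact hsm _ (by omega)
      · obtain ⟨g1, g2⟩ := rj_gap h3
        rw [rj_lt hμ g1]
        exact hsm _ (by omega))
  rw [Finset.card_range] at h2
  push_cast at h2
  have h4 : (4 : ℝ) ^ j = 2 ^ j * 2 ^ j := by
    rw [← mul_pow]
    norm_num
  have h5 : (1 / 2 : ℝ) ^ j ≤ (1 / 2) ^ J :=
    pow_le_pow_of_le_one (by norm_num) (by norm_num) hjJ
  have h6 : (0 : ℝ) < 2 ^ j := by positivity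
  calc 1 / 4 ^ j * ∫ z, ‖∑ l ∈ Finset.range (2 ^ j), z ^ tau (idx i j l)‖ ^ 2 ∂μ
      ≤ 1 / 4 ^ j * (2 ^ j + (2 ^ j) ^ 2 * (e / 4)) := by gcongr
    _ = (1 / 2) ^ j + e / 4 := by
        rw [h4, one_div_pow]
        field_simp
    _ < e := by linarith

end Forcing.RJ
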