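import Pool.Agent.Lib.MP_c80ac4_an.RJ.Pair
import Pool.Agent.Lib.MP_c80ac4_an.RJ.Arv

/-!
# Row SQ: mean square of the test polynomials (as `Forcing.UN.sq_haar` in UN/Cls.lean)

On the circle `‖∑ (z^n - 1/2)‖² = ∑ a, ∑ b, (z^a - 1/2) (z^(-b) - 1/2)`, and the integral of
`(z^a - 1/2) (z^(-b) - 1/2) rp` is `rI (a - b) - (rI a + rI (-b)) / 2 + rI 0 / 4`: for `a ≠ b` this
is `1/4 - 1/2 + 1/4 = 0` (`rI_pair`, `rI_one`, `rI_neg`, `rI_haar_zero`), for `a = b` it is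
`1 - 1/2 + 1/4 = 3/4`.
`sq_P`: `P i j z - 1/2 = (1 / 2^j) ∑ n ∈ fr i j, (z^n - 1/2)` (`fr_card`, `Finset.sum_image`,
`tau_inj`, `idx_inj`), so the integral is `(3/4) 2^j / 4^j`.
-/

namespace Forcing.RJ

open Complex Metric Set MeasureTheory Filter Topology Forcing.RZ Forcing.UN

private theorem sq_par : Par 5 1 0 (1 / 4) 0 1 where
  Q1 := by norm_num
  Qα := by norm_num
  α0 := one_pos
  C0 := le_rfl
  c0 := by norm_num
  c1 := by norm_num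
  Qc := by norm_num
  N0 := le_rfl
  hκ := by simp

private theorem sq_point (ε : ℕ → ℂ) (A : Finset ℕ) (a b : ℕ) {z : ℂ} (hz : ‖z‖ = 1) :
    (z ^ a - 1 / 2) * (starRingEnd ℂ) (z ^ b - 1 / 2) * rp ε A z =
      (z ^ ((a : ℤ) - b) * rp ε A z + (-(1 / 2)) * (z ^ (a : ℤ) * rp ε A z)) +
      ((-(1 / 2)) * (z ^ (-(b : ℤ)) * rp ε A z) + (1 / 4) * (z ^ (0 : ℤ) * rp ε A z)) := by
  have hz0 : z ≠ 0 := by
    rintro rfl
    simp at hz
  have hz1 : (starRingEnd ℂ) z = z⁻¹ := by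
    rw [Complex.inv_def, Complex.normSq_eq_norm_sq, hz]; simp
  have h2 : (starRingEnd ℂ) (1 / 2 : ℂ) = 1 / 2 := by
    rw [map_div₀, map_one, map_ofNat]
  rw [map_sub, map_pow, hz1, h2, zpow_sub₀ hz0, zpow_natCast, zpow_natCast, zpow_neg, zpow_natCast, inv_pow,
    zpow_zero, div_eq_mul_inv]
  ring

private theorem sq_int {ε : ℕ → ℂ} (hε : ∀ n, ‖ε n‖ ≤ 1) (A : Finset ℕ) (a b : ℕ) :
    Integrable (fun z => (z ^ a - 1 / 2) * (starRingEnd ℂ) (z ^ b - 1 / 2) * rp ε A z) haar := by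
  have i1 := int_rp haar_norm hε A ((a : ℤ) - b)
  have i2 := (int_rp haar_norm hε A (a : ℤ)).const_mul (-(1 / 2) : ℂ)
  have i3 := (int_rp haar_norm hε A (-(b : ℤ))).const_mul (-(1 / 2) : ℂ)
  have i4 := (int_rp haar_norm hε A (0 : ℤ)).const_mul (1 / 4 : ℂ)
  refine ((i1.add i2).add (i3.add i4)).congr ?_
  filter_upwards [haar_norm] with z hz
  exact (sq_point ε A a b hz).symm

private theorem sq_eq {ε : ℕ → ℂ} (hε : ∀ n, ‖ε n‖ ≤ 1) (A : Finset ℕ) (a b : ℕ) :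
    ∫ z, (z ^ a - 1 / 2) * (starRingEnd ℂ) (z ^ b - 1 / 2) * rp ε A z ∂haar =
      (rI haar ε A ((a : ℤ) - b) + (-(1 / 2)) * rI haar ε A (a : ℤ)) +
      ((-(1 / 2)) * rI haar ε A (-(b : ℤ)) + (1 / 4) * rI haar ε A 0) := by
  have i1 := int_rp haar_norm hε A ((a : ℤ) - b)
  have i2 := (int_rp haar_norm hε A (a : ℤ)).const_mul (-(1 / 2) : ℂ)
  have i3 := (int_rp haar_norm hε A (-(b : ℤ))).const_mul (-(1 / 2) : ℂ)
  have i4 := (int_rp haar_norm hε A (0 : ℤ)).const_mul (1 / 4 : ℂ)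
  unfold rI
  rw [← integral_const_mul, ← integral_const_mul, ← integral_const_mul, ← integral_add i1 i2,
    ← integral_add i3 i4, ← integral_add]
  · refine integral_congr_ae ?_
    filter_upwards [haar_norm] with z hz
    exact sq_point ε A a b hz
  · exact i1.add i2
  · exact i3.add i4

theorem sq_tilt {ε : ℕ → ℂ} (hε : ∀ n, ‖ε n‖ ≤ 1) {A : Finset ℕ} (hA : Lc 5 A)
    (hN : ∀ m ∈ A, 1 ≤ m) {F : Finset ℕ} (hF : F ⊆ A) (h1 : ∀ n ∈ F, ε n = 1) :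
    ∫ z, ‖∑ n ∈ F, (z ^ n - 1 / 2)‖ ^ 2 * ‖rp ε A z‖ ∂haar = 3 / 4 * F.card := by
  have h0 : rI haar ε A 0 = 1 := rI_haar_zero sq_par hε A hA hN
  have hone : ∀ a ∈ F, rI haar ε A (a : ℤ) = 1 / 2 := by
    intro a ha
    rw [rI_one hε hA hN (hF ha), h1 a ha]
  have h2c : (starRingEnd ℂ) (1 / 2 : ℂ) = 1 / 2 := by
    rw [map_div₀, map_one, map_ofNat]
  have hneg : ∀ a ∈ F, rI haar ε A (-(a : ℤ)) = 1 / 2 := by
    intro a ha
    rw [rI_neg haar_norm hε, hone a ha, h2c]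
  have hpair : ∀ a ∈ F, ∀ b ∈ F, b < a → rI haar ε A ((a : ℤ) - b) = 1 / 4 := by
    intro a ha b hb hab
    rw [rI_pair hε hA hN (hF ha) (hF hb) hab, h1 a ha, h1 b hb, map_one]
    norm_num
  have key : ∀ a ∈ F, ∀ b ∈ F, ∫ z, (z ^ a - 1 / 2) * (starRingEnd ℂ) (z ^ b - 1 / 2) * rp ε A z ∂haar =
      if a = b then 3 / 4 else 0 := by
    intro a ha b hb
    rw [sq_eq hε A a b, hone a ha, hneg b hb, h0]
    rcases lt_trichotomy a b with hab | hab | hab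
    · rw [if_neg hab.ne]
      have h2 : ((a : ℤ) - b) = -((b : ℤ) - a) := by ring
      rw [h2, rI_neg haar_norm hε, hpair b hb a ha hab]
      have h4c : (starRingEnd ℂ) (1 / 4 : ℂ) = 1 / 4 := by
        rw [map_div₀, map_one, map_ofNat]
      rw [h4c]
      norm_num
    · rw [if_pos hab, hab, sub_self, h0]
      norm_num
    · rw [if_neg hab.ne', hpair a ha b hb hab]
      norm_num
  have e1 : ((∫ z, ‖∑ n ∈ F, (z ^ n - 1 / 2)‖ ^ 2 * ‖rp ε A z‖ ∂haar : ℝ) : ℂ) =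
      ∑ a ∈ F, ∑ b ∈ F, ∫ z, (z ^ a - 1 / 2) * (starRingEnd ℂ) (z ^ b - 1 / 2) * rp ε A z ∂haar := by
    rw [← integral_complex_ofReal]
    have h2 : ∀ a ∈ F, ∑ b ∈ F, ∫ z, (z ^ a - 1 / 2) * (starRingEnd ℂ) (z ^ b - 1 / 2) * rp ε A z ∂haar =
        ∫ z, ∑ b ∈ F, (z ^ a - 1 / 2) * (starRingEnd ℂ) (z ^ b - 1 / 2) * rp ε A z ∂haar := fun a _ =>
      (integral_finsetSum _ fun b _ => sq_int hε A a b).symm
    rw [Finset.sum_congr rfl h2, ← integral_finsetSum]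
    · refine integral_congr_ae ?_
      filter_upwards [haar_norm] with z hz
      obtain ⟨t, ht0, ht⟩ := rp_nonneg hε A hz
      have h3 : ((‖∑ n ∈ F, (z ^ n - 1 / 2)‖ ^ 2 : ℝ) : ℂ) =
          ∑ a ∈ F, ∑ b ∈ F, (z ^ a - 1 / 2) * (starRingEnd ℂ) (z ^ b - 1 / 2) := by
        rw [← Complex.normSq_eq_norm_sq, ← Complex.mul_conj, map_sum, Finset.sum_mul_sum]
      rw [Complex.ofReal_mul, h3, Finset.sum_mul]
      refine Finset.sum_congr rfl fun a _ => ?_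
      rw [Finset.sum_mul]
      refine Finset.sum_congr rfl fun b _ => ?_
      rw [ht, Complex.norm_real, Real.norm_of_nonneg ht0]
    · intro a _
      exact integrable_finsetSum _ fun b _ => sq_int hε A a b
  have e2 : ∑ a ∈ F, ∑ b ∈ F, ∫ z, (z ^ a - 1 / 2) * (starRingEnd ℂ) (z ^ b - 1 / 2) * rp ε A z ∂haar =
      ((3 / 4 * F.card : ℝ) : ℂ) := by
    have h3 : ∀ a ∈ F, ∑ b ∈ F, ∫ z, (z ^ a - 1 / 2) * (starRingEnd ℂ) (z ^ b - 1 / 2) * rp ε A z ∂haar = 3 / 4 := by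
      intro a ha
      rw [Finset.sum_congr rfl (key a ha), Finset.sum_ite_eq, if_pos ha]
    rw [Finset.sum_congr rfl h3, Finset.sum_const, nsmul_eq_mul]
    push_cast
    ring
  rw [e2] at e1
  exact_mod_cast e1

theorem sq_P {ε : ℕ → ℂ} (hε : ∀ n, ‖ε n‖ ≤ 1) {A : Finset ℕ} (hA : Lc 5 A)
    (hN : ∀ m ∈ A, 1 ≤ m) {i j : ℕ} (hF : fr i j ⊆ A) (h1 : ∀ n ∈ fr i j, ε n = 1) :
    ∫ z, ‖P i j z - 1 / 2‖ ^ 2 * ‖rp ε A z‖ ∂haar ≤ (1 / 2) ^ j := by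
  have h := sq_tilt hε hA hN hF h1
  have h2j : (0 : ℝ) < 2 ^ j := by positivity
  have hP : ∀ z : ℂ, P i j z - 1 / 2 = (1 / ((2 ^ j : ℕ) : ℂ)) * ∑ n ∈ fr i j, (z ^ n - 1 / 2) := by
    intro z
    have h2c : ((2 ^ j : ℕ) : ℂ) ≠ 0 := by
      exact_mod_cast (by positivity : (2 ^ j : ℕ) ≠ 0)
    rw [Finset.sum_sub_distrib, Finset.sum_const, fr_card, nsmul_eq_mul, mul_sub]
    unfold P fr
    rw [Finset.sum_image]
    · congr 1
      field_simp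
    · intro x _ y _ hxy
      exact idx_inj (tau_inj hxy)
  have e1 : ∫ z, ‖P i j z - 1 / 2‖ ^ 2 * ‖rp ε A z‖ ∂haar =
      (1 / 2 ^ j) ^ 2 * ∫ z, ‖∑ n ∈ fr i j, (z ^ n - 1 / 2)‖ ^ 2 * ‖rp ε A z‖ ∂haar := by
    rw [← integral_const_mul]
    refine integral_congr_ae (Eventually.of_forall fun z => ?_)
    have h2 : ‖(1 / ((2 ^ j : ℕ) : ℂ))‖ = 1 / 2 ^ j := by
      rw [norm_div, norm_one, Complex.norm_natCast]
      push_cast
      rfl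
    simp only [hP, norm_mul, h2, mul_pow]
    ring
  rw [e1, h, fr_card]
  push_cast
  have e2 : (1 / (2 : ℝ) ^ j) ^ 2 * (3 / 4 * 2 ^ j) = 3 / 4 * (1 / 2 ^ j) := by
    field_simp
  rw [e2, one_div_pow]
  have h3 : (0 : ℝ) < 1 / 2 ^ j := by positivity
  linarith

end Forcing.RJ
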